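import Pool.Agent.Helper61.FN.Defs

/-!
# Project FN: small tools
-/

set_option autoImplicit false

namespace Pool.Agent.Helper61.FN

open Finset

section general

variable {E J F k : Type} [Fintype E] [Fintype J] [Field F] [Field k] [Algebra F k]
  {m : J → E → ℤ} {c : J → F} {d : E → F} {lam : F} {v : E → ℤ} {M : ℤ} {ξ : E → k}

theorem mon_ne {x : E → k} (hx : ∀ e, x e ≠ 0) (m : E → ℤ) : mon x m ≠ 0 :=
  prod_ne_zero_iff.2 fun e _ ↦ zpow_ne_zero _ (hx e)

theorem am_ne {a : F} (h : a ≠ 0) : algebraMap F k a ≠ 0 := by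
  rwa [Ne, map_eq_zero]

/-- Not all monomials with nonzero weight have negative growth. -/
theorem Nrm.neg (h : Nrm m c d lam v M ξ) (w : E → F) (hd : ∑ e, d e * w e ≠ 0)
    (hj : ∀ j, c j * pr (m j) w ≠ 0 → M + gr (m j) v < 0) : False := by
  have h1 := h.lead w 0 le_rfl fun j hj' ↦ (hj j hj').le
  rw [if_pos rfl, sum_eq_zero fun j _ ↦ ?_] at h1
  · exact am_ne (mul_ne_zero (neg_ne_zero.2 h.lam_ne) hd) h1.symm
  · split_ifs with h2
    · by_cases h3 : c j * pr (m j) w = 0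
      · rw [h3, map_zero, zero_mul]
      · have := hj j h3
        omega
    · rfl

/-- A strictly dominant monomial does not have positive growth. -/
theorem Nrm.dom (h : Nrm m c d lam v M ξ) (w : E → F) (i : J) (hi : c i * pr (m i) w ≠ 0)
    (hp : 0 < M + gr (m i) v)
    (hj : ∀ j, j ≠ i → c j * pr (m j) w ≠ 0 → gr (m j) v < gr (m i) v) : False := by
  classical
  have h1 := h.lead w (M + gr (m i) v) hp.le fun j hj' ↦ by
    by_cases hji : j = i
    · rw [hji]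
    · have := hj j hji hj'
      omega
  rw [if_neg hp.ne', sum_eq_single i] at h1
  · rw [if_pos rfl] at h1
    exact mul_ne_zero (am_ne hi) (mon_ne h.ne _) h1
  · intro j _ hji
    split_ifs with h2
    · by_cases h3 : c j * pr (m j) w = 0
      · rw [h3, map_zero, zero_mul]
      · have := hj j hji h3
        omega
    · rfl
  · intro h2
    exact (h2 (mem_univ i)).elim

/-- A strictly dominant monomial of a weight with nonzero right side has growth zero. -/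
theorem Nrm.dm0 (h : Nrm m c d lam v M ξ) (w : E → F) (hd : ∑ e, d e * w e ≠ 0) (i : J)
    (hi : c i * pr (m i) w ≠ 0)
    (hj : ∀ j, j ≠ i → c j * pr (m j) w ≠ 0 → gr (m j) v < gr (m i) v) :
    M + gr (m i) v = 0 := by
  rcases lt_trichotomy (M + gr (m i) v) 0 with h1 | h1 | h1
  · refine (h.neg w hd fun j hj' ↦ ?_).elim
    by_cases hji : j = i
    · rwa [hji]
    · have := hj j hji hj'
      omega
  · exact h1
  · exact (h.dom w i hi h1 hj).elim

/-- The identity of the weight `w` for the leading coefficients at level `g`. -/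
theorem Nrm.ld (h : Nrm m c d lam v M ξ) (w : E → F) (g : ℤ) (hg : 0 ≤ g)
    (hj : ∀ j, c j * pr (m j) w ≠ 0 → M + gr (m j) v ≤ g) :
    ∑ j, (if M + gr (m j) v = g then
        algebraMap F k (pr (m j) w) * (algebraMap F k (c j) * mon ξ (m j)) else 0) =
      if g = 0 then algebraMap F k (-lam * ∑ e, d e * w e) else 0 := by
  rw [← h.lead w g hg hj]
  refine sum_congr rfl fun j _ ↦ ?_
  split_ifs
  · rw [map_mul]
    ring
  · rfl

theorem pr_single [DecidableEq E] (m : E → ℤ) (e : E) : pr m (Pi.single e (1 : F)) = (m e : F) := by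
  unfold pr
  rw [sum_eq_single e]
  · rw [Pi.single_eq_same, mul_one]
  · intro b _ hb
    rw [Pi.single_eq_of_ne hb, mul_zero]
  · intro h
    exact (h (mem_univ e)).elim

/-- The equation of the edge `e` for the leading coefficients of the monomials of maximal growth. -/
theorem Nrm.ld0 (h : Nrm m c d lam v M ξ) (e : E) :
    ∑ j, (m j e : k) * (if gr (m j) v = 0 then algebraMap F k (c j) * mon ξ (m j) else 0) = 0 := by
  classical
  have h1 := h.ld (Pi.single e (1 : F)) M h.M_pos.le fun j _ ↦ by have := h.le j; omega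
  rw [if_neg h.M_pos.ne'] at h1
  refine (sum_congr rfl fun j _ ↦ ?_).trans h1
  rw [pr_single, map_intCast]
  by_cases h2 : gr (m j) v = 0
  · rw [if_pos h2, if_pos (by omega)]
  · rw [if_neg h2, if_neg (by omega), mul_zero]

end general

theorem gr6 (m v : Fin 6 → ℤ) :
    gr m v = m 0 * v 0 + m 1 * v 1 + m 2 * v 2 + m 3 * v 3 + m 4 * v 4 + m 5 * v 5 := by
  simp [gr, Fin.sum_univ_succ]
  ring

theorem pr6 {F : Type} [Field F] (m : Fin 6 → ℤ) (w : Fin 6 → F) :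
    pr m w = m 0 * w 0 + m 1 * w 1 + m 2 * w 2 + m 3 * w 3 + m 4 * w 4 + m 5 * w 5 := by
  simp [pr, Fin.sum_univ_succ]
  ring

section A

variable {F k : Type} [Field F] [LinearOrder F] [IsStrictOrderedRing F] [Field k] [Algebra F k]
  {n : Fin 4 → F} {lam : F} {v : Fin 6 → ℤ} {M : ℤ} {ξ : Fin 6 → k}

/-- `v` is a pseudometric on the four blocks. -/
theorem NA.tri (h : NA n lam v M ξ) :
    (∀ e, 0 ≤ v e) ∧ (v 0 ≤ v 1 + v 3 ∧ v 1 ≤ v 0 + v 3 ∧ v 3 ≤ v 0 + v 1) ∧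
      (v 0 ≤ v 2 + v 4 ∧ v 2 ≤ v 0 + v 4 ∧ v 4 ≤ v 0 + v 2) ∧
      (v 1 ≤ v 2 + v 5 ∧ v 2 ≤ v 1 + v 5 ∧ v 5 ≤ v 1 + v 2) ∧
      (v 3 ≤ v 4 + v 5 ∧ v 4 ≤ v 3 + v 5 ∧ v 5 ≤ v 3 + v 4) := by
  have h1 := h.nrm.le
  have g (j : Fin 18) := h1 j
  simp only [gr6] at g
  have g0 := g 0
  have g1 := g 1
  have g2 := g 2
  have g3 := g 3
  have g4 := g 4
  have g5 := g 5
  have g6 := g 6
  have g7 := g 7
  have g8 := g 8
  have g9 := g 9
  have g10 := g 10
  have g11 := g 11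
  have g12 := g 12
  have g13 := g 13
  have g14 := g 14
  have g15 := g 15
  have g16 := g 16
  have g17 := g 17
  simp [mA] at g0 g1 g2 g3 g4 g5 g6 g7 g8 g9 g10 g11 g12 g13 g14 g15 g16 g17
  refine ⟨fun e ↦ ?_, ?_, ?_, ?_, ?_⟩
  · fin_cases e <;> simp <;> omega
  all_goals omega

/-- The sum of the `d_e v_e`. -/
theorem NA.sm (h : NA n lam v M ξ) :
    n 0 * n 1 * (v 0 : F) + n 0 * n 2 * (v 1 : F) + n 0 * n 3 * (v 2 : F) + n 1 * n 2 * (v 3 : F) +
      n 1 * n 3 * (v 4 : F) + n 2 * n 3 * (v 5 : F) =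
    (M : F) * (n 0 * n 1 + n 0 * n 2 + n 0 * n 3 + n 1 * n 2 + n 1 * n 3 + n 2 * n 3) := by
  have h1 := h.nrm.sum
  simp [Fin.sum_univ_succ, dA] at h1
  linear_combination h1

end A

section C

variable {F k : Type} [Field F] [LinearOrder F] [IsStrictOrderedRing F] [Field k] [Algebra F k]
  {p q mu ep lam : F} {v : Fin 6 → ℤ} {M : ℤ} {ξ : Fin 6 → k}

/-- Type `BC₂`: the inequalities for `v`. -/
theorem NC.tri (h : NC p q mu ep lam v M ξ) :
    (∀ e, 0 ≤ v e) ∧ (v 0 ≤ v 4 + v 5 ∧ v 4 ≤ v 0 + v 5 ∧ v 5 ≤ v 0 + v 4) ∧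
      (v 1 ≤ v 4 + v 5 ∧ v 4 ≤ v 1 + v 5 ∧ v 5 ≤ v 1 + v 4) ∧
      v 2 ≤ 2 * v 4 ∧ v 3 ≤ 2 * v 5 ∧
      (v 2 ≤ v 0 + v 1 ∧ v 0 ≤ v 2 + v 1 ∧ v 1 ≤ v 2 + v 0) ∧
      (v 3 ≤ v 0 + v 1 ∧ v 0 ≤ v 3 + v 1 ∧ v 1 ≤ v 3 + v 0) := by
  have h1 := h.nrm.le
  have g (j : Fin 20) := h1 j
  simp only [gr6] at g
  have g0 := g 0
  have g1 := g 1
  have g2 := g 2
  have g3 := g 3
  have g4 := g 4
  have g5 := g 5
  have g6 := g 6
  have g7 := g 7
  have g8 := g 8
  have g9 := g 9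
  have g10 := g 10
  have g11 := g 11
  have g12 := g 12
  have g13 := g 13
  have g14 := g 14
  have g15 := g 15
  have g16 := g 16
  have g17 := g 17
  have g18 := g 18
  have g19 := g 19
  simp [mC] at g0 g1 g2 g3 g4 g5 g6 g7 g8 g9 g10 g11 g12 g13 g14 g15 g16 g17 g18 g19
  refine ⟨fun e ↦ ?_, ?_, ?_, ?_, ?_, ?_, ?_⟩
  · fin_cases e <;> simp <;> omega
  all_goals omega

/-- The sum of the `d_e v_e`. -/
theorem NC.sm (h : NC p q mu ep lam v M ξ) :
    2 * p * q * (v 0 : F) + 2 * p * q * (v 1 : F) + p * (p + ep) * (v 2 : F) +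
      q * (q + ep) * (v 3 : F) + 2 * p * mu * (v 4 : F) + 2 * q * mu * (v 5 : F) =
    (M : F) * (4 * p * q + p * (p + ep) + q * (q + ep) + 2 * p * mu + 2 * q * mu) := by
  have h1 := h.nrm.sum
  simp [Fin.sum_univ_succ, dC] at h1
  linear_combination h1

end C

/-- Sample (B1): the classes `{0, 1, 2}, {3}`. -/
theorem goalAB1 {F k : Type} [Field F] [LinearOrder F] [IsStrictOrderedRing F] [Field k]
    [Algebra F k] {n : Fin 4 → F} {lam : F} {v : Fin 6 → ℤ} {M : ℤ} {ξ : Fin 6 → k}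
    (h : NA n lam v M ξ) (h0 : v 0 = 0) (h1 : v 1 = 0) (h3 : v 3 = 0) (h4 : v 4 = v 2)
    (h5 : v 5 = v 2) (h2 : 0 < v 2) : False := by
  have n0 := h.pos 0
  have n1 := h.pos 1
  have n2 := h.pos 2
  have n3 := h.pos 3
  have hM : M < v 2 := by
    have hs := h.sm
    rw [h0, h1, h3, h4, h5] at hs
    by_contra hc
    have hc' : (v 2 : F) ≤ M := by exact_mod_cast not_lt.1 hc
    have hM0 : (0 : F) < M := by exact_mod_cast h.nrm.M_pos
    have h6 : (0 : F) < n 0 * n 1 + n 0 * n 2 + n 1 * n 2 := by positivity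
    have h7 : (0 : F) < n 0 * n 3 + n 1 * n 3 + n 2 * n 3 := by positivity
    simp only [Int.cast_zero, mul_zero, zero_add] at hs
    nlinarith [mul_pos hM0 h6, mul_le_mul_of_nonneg_left hc' h7.le]
  refine h.nrm.neg ![0, 0, 1, 0, 1, 1] ?_ fun j hj ↦ ?_
  · simp [Fin.sum_univ_succ, dA]
    positivity
  · rw [gr6]
    rw [pr6] at hj
    fin_cases j <;> simp [mA] at hj ⊢ <;> omega

end Pool.Agent.Helper61.FN
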