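import Pool.Agent.Helper61.FN.Goals

/-!
# Project FN (MP_06d934_gt): goals, second part (T-roots of type `BC₂`)

Paper: team-store FN_paper.md, section 2, with `eps = -ep`. Always `ph = p + ep`, `ch = q + ep`, `K0 = 2p+2q+mu+2ep =
2ph+2q+mu = 2p+2ch+mu`, `s = p+q+ep = ph+q = p+ch`. Coordinates `0..5` = `x₋, x₊, z₁, z₂, y₁, y₂`; `X₋ = ξ 0, X₊ = ξ 1,
Z₁ = ξ 2, Z₂ = ξ 3, Y₁ = ξ 4, Y₂ = ξ 5`. `A = algebraMap F k`.
-/

set_option autoImplicit false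

namespace Pool.Agent.Helper61.FN

open Finset WithZero

/-- Square roots of positive elements. -/
def SqF (F : Type) [Field F] [LinearOrder F] : Prop := ∀ a : F, 0 < a → ∃ b : F, b * b = a

/-- **FN-CSG** (the symmetry `x₋ ↔ x₊`). Proof: reindex the sums; the permutation of the monomials is
`6 ↔ 9, 7 ↔ 10, 8 ↔ 11, 0 ↔ 1, 15 ↔ 16, 18 ↔ 19`; coefficients and dimensions are invariant. (A general reindexing
lemma for `Nrm` is useful, see `G_APM`.) -/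
def G_CSG : Prop := ∀ (F k : Type) [Field F] [LinearOrder F] [IsStrictOrderedRing F] [Field k]
  [Algebra F k] (p q mu ep lam : F) (v : Fin 6 → ℤ) (M : ℤ) (ξ : Fin 6 → k),
    NC p q mu ep lam v M ξ → NC p q mu ep lam (fun e ↦ v (sg e)) M (fun e ↦ ξ (sg e))

/-- **FN-CTA** (the symmetry `1 ↔ 2`). Proof: reindex the sums; the permutation of the monomials is `2 ↔ 3, 4 ↔ 5,
7 ↔ 8, 10 ↔ 11, 12 ↔ 13, 14 ↔ 17, 15 ↔ 18, 16 ↔ 19`; `p` and `q` are exchanged. -/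
def G_CTA : Prop := ∀ (F k : Type) [Field F] [LinearOrder F] [IsStrictOrderedRing F] [Field k]
  [Algebra F k] (p q mu ep lam : F) (v : Fin 6 → ℤ) (M : ℤ) (ξ : Fin 6 → k),
    NC p q mu ep lam v M ξ → NC q p mu ep lam (fun e ↦ v (ta e)) M (fun e ↦ ξ (ta e))

/-- **FN-C5** (compare `goalAB1` in Tools). Proof: `β = v 4 = v 5`; `NC.sm` gives `M < β`. `Nrm.neg` with
`w = ![0,0,0,0,1,1]`: all monomials with nonzero weight have growth `M - β` or `M - 2β`. -/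
def G_C5 : Prop := ∀ (F k : Type) [Field F] [LinearOrder F] [IsStrictOrderedRing F] [Field k]
  [Algebra F k] (p q mu ep lam : F) (v : Fin 6 → ℤ) (M : ℤ) (ξ : Fin 6 → k),
    NC p q mu ep lam v M ξ → v 0 = 0 → v 1 = 0 → v 2 = 0 → v 3 = 0 → v 5 = v 4 → 0 < v 4 → False

/-- **FN-C6**. Proof: `α = v 0 = v 1 = v 5`; `NC.sm` gives `M < α`. `Nrm.neg` with `w = ![1,1,0,0,0,1]`: growths `M - α`,
`M - 2α`. -/
def G_C6 : Prop := ∀ (F k : Type) [Field F] [LinearOrder F] [IsStrictOrderedRing F] [Field k]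
  [Algebra F k] (p q mu ep lam : F) (v : Fin 6 → ℤ) (M : ℤ) (ξ : Fin 6 → k),
    NC p q mu ep lam v M ξ → v 2 = 0 → v 3 = 0 → v 4 = 0 → v 1 = v 0 → v 5 = v 0 → 0 < v 0 → False

/-- **FN-CR** (`z₁ = 0`, `x₋ = x₊`). Proof: `Nrm.ld0` for the edge 2: the monomials of maximal growth containing `z₁` are `2`
(`1/z₁`), `15` and `16` (`14` has `gr = -2 v 0 < 0`, `12` has `gr = -2 v 4 < 0`):
`-2p ph s/Z₁ + p q ph (X₋/(Z₁X₊) + X₊/(Z₁X₋)) = 0`, so `2 s X₋ X₊ = q (X₋² + X₊²)`. If `X₋ + X₊ = 0` then `-2s X₋² = 2q X₋²`,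
impossible because `s + q > 0`. -/
def G_CR : Prop := ∀ (F k : Type) [Field F] [LinearOrder F] [IsStrictOrderedRing F] [Field k]
  [Algebra F k] (p q mu ep lam : F) (v : Fin 6 → ℤ) (M : ℤ) (ξ : Fin 6 → k),
    NC p q mu ep lam v M ξ → v 2 = 0 → v 1 = v 0 → 0 < v 0 → 0 < v 4 →
      algebraMap F k (2 * (p + q + ep)) * (ξ 0 * ξ 1) = algebraMap F k q * (ξ 0 ^ 2 + ξ 1 ^ 2) ∧
      ξ 0 + ξ 1 ≠ 0

/-- **FN-CST** (the triangle is strict; take `G_CR` as hypothesis). Proof: otherwise exactly one of the three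
equations holds (all lengths are positive). `Nrm.ld0` for the edge 4 (`y₁`): the monomials of maximal growth containing
`y₁` are two of `6..11` (the same one in both triangles, because `v 1 = v 0`); `4` has `gr = -v 4`, `12` has
`gr = v 2 - 2 v 4 = -2 v 4`. So (coefficients `-(p q mu)`): `(X₋ + X₊)/(Y₁Y₂) = 0`, or `Y₁ (1/X₋ + 1/X₊)/Y₂ = 0`, or
`Y₂ (1/X₋ + 1/X₊)/Y₁ = 0`: `X₋ + X₊ = 0`, contradiction to `G_CR`. -/
def G_CST : Prop := ∀ (F k : Type) [Field F] [LinearOrder F] [IsStrictOrderedRing F] [Field k]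
  [Algebra F k] (p q mu ep lam : F) (v : Fin 6 → ℤ) (M : ℤ) (ξ : Fin 6 → k),
    NC p q mu ep lam v M ξ → v 2 = 0 → v 1 = v 0 → 0 < v 0 → 0 < v 4 → 0 < v 5 →
      v 0 < v 4 + v 5 ∧ v 4 < v 0 + v 5 ∧ v 5 < v 0 + v 4

/-- **FN-C3** (`z₁ = z₂ = 0`; take `G_CR`, `G_CST`, `G_CTA` as hypotheses). Paper, section 2, (C3): `α = v 0`, `b1 = v 4`,
`b2 = v 5`, strict triangle, `X₋ + X₊ ≠ 0`; `NC.sm` gives `M < max`. Growths of the monomials with nonzero weight: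
`w0 = ![0,0,0,0,1,1]`: `4: M-b1`, `5: M-b2`, `6, 9: M+α-b1-b2` (leading sum `X₋+X₊` over `Y₁Y₂`), `12: M-2b1`, `13: M-2b2`.
`w1 = ![1,1,0,0,1,0]`: `0, 1: M-α`, `4: M-b1`, `8, 11: M+b2-α-b1`, `12: M-2b1`, `14, 17: M-2α`.
`w2 = ![1,1,0,0,0,1]`: `0, 1: M-α`, `5: M-b2`, `7, 10: M+b1-α-b2`, `13: M-2b2`, `14, 17: M-2α`.
(i) two of `α, b1, b2` are the maximum: `Nrm.neg` with `w1` (`α = b1`), `w2` (`α = b2`), `w0` (`b1 = b2`).
(ii) `α > b1, b2`: `Nrm.dm0` for `w1`: `b1 = M`; for `w2`: `b2 = M`; then `Nrm.ld` for `w0`, `g = α - M > 0`: only `6, 9`: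
`X₋ + X₊ = 0`, contradiction. (iii) `b1 > α, b2`: `w0`: monomial 5 dominates, `b2 = M`; `w1`: the monomials `0, 1` (sum
`1/X₋ + 1/X₊ ≠ 0`) dominate: `α = M` (if `M - α > 0`: `Nrm.ld` at `g = M - α`; if `< 0`: `Nrm.neg`); `w2`, `g = b1 - M > 0`:
only `7, 10`: `Y₁ (1/X₋+1/X₊)/Y₂ = 0`, contradiction. (iv) `b2 > α, b1`: the same with `1, 2` exchanged (`G_CTA`). -/
def G_C3 : Prop := ∀ (F k : Type) [Field F] [LinearOrder F] [IsStrictOrderedRing F] [Field k]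
  [Algebra F k] (p q mu ep lam : F) (v : Fin 6 → ℤ) (M : ℤ) (ξ : Fin 6 → k),
    NC p q mu ep lam v M ξ → v 2 = 0 → v 3 = 0 → v 1 = v 0 → 0 < v 0 → 0 < v 4 → 0 < v 5 → False

/-- **FN-C2** (`z₁ = 0 < z₂`; take `G_CR`, `G_CST` as hypotheses). Proof: `Nrm.ld0` for the edges 0 and 1: monomials of
maximal growth containing `x₋` or `x₊`: `15, 16`, and `17` (`z₂/(x₋x₊)`) if `v 3 = 2 v 0`
(`18, 19` have `gr = -v 3 < 0`; `0, 1, 14` negative; `6..11` negative by `G_CST`). With `B = (X₋/X₊ - X₊/X₋)/Z₁`: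
`-p q ph B + [p q ch Z₂/(X₋X₊)] = 0` and `p q ph B + [p q ch Z₂/(X₋X₊)] = 0`. So `v 3 ≠ 2 v 0` and `B = 0`, `X₋² = X₊²`,
`X₋ = X₊` (`G_CR`), and `G_CR` gives `2 s = 2 q`, `ph = 0`, contradiction. -/
def G_C2 : Prop := ∀ (F k : Type) [Field F] [LinearOrder F] [IsStrictOrderedRing F] [Field k]
  [Algebra F k] (p q mu ep lam : F) (v : Fin 6 → ℤ) (M : ℤ) (ξ : Fin 6 → k),
    NC p q mu ep lam v M ξ → v 2 = 0 → v 1 = v 0 → 0 < v 0 → 0 < v 4 → 0 < v 5 → 0 < v 3 → False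

/-- **FN-C1A** (`x₋ = 0`, `x₊ = z₁ = z₂ = α < 2β`, `y₁ = y₂ = β`). Proof: monomials of maximal growth: `0, 7, 8, 14, 16,
17, 19`. `σ = Y₁/Y₂`, `t1 = Z₁/X₊`, `t2 = Z₂/X₊`. `Nrm.ld0`: edge 4: `σ - 1/σ = 0`; edge 2: `t1 - 1/t1 = 0`; edge 3:
`t2 - 1/t2 = 0`; edge 0: `2K0 = mu (σ+1/σ) + ph (t1+1/t1) + ch (t2+1/t2)`, so `K0 = ± mu ± ph ± ch`, but
`K0 = p + ph + q + ch + mu > mu + ph + ch`. -/
def G_C1A : Prop := ∀ (F k : Type) [Field F] [LinearOrder F] [IsStrictOrderedRing F] [Field k]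
  [Algebra F k] (p q mu ep lam : F) (v : Fin 6 → ℤ) (M : ℤ) (ξ : Fin 6 → k),
    NC p q mu ep lam v M ξ → v 0 = 0 → v 2 = v 1 → v 3 = v 1 → v 5 = v 4 → 0 < v 1 → 0 < v 4 →
      v 1 < 2 * v 4 → False

/-- The relations of the case (C1), `α = 2β`, after `σ = -p/q` (`th, t1, t2` nonzero). -/
def RelC1 {F k : Type} [Field F] [Field k] [Algebra F k] (p q mu ep : F) (th t1 t2 : k) : Prop :=
  th ≠ 0 ∧ t1 ≠ 0 ∧ t2 ≠ 0 ∧
  th * algebraMap F k q * (algebraMap F k p - algebraMap F k (p + ep) * t1) =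
    algebraMap F k (q ^ 2 - p ^ 2) ∧
  th * algebraMap F k p * (algebraMap F k q - algebraMap F k (q + ep) * t2) =
    algebraMap F k (p ^ 2 - q ^ 2) ∧
  algebraMap F k (2 * p) * (t1 ^ 2 - 1) = algebraMap F k mu * th * t1 ^ 2 ∧
  algebraMap F k (2 * q) * (t2 ^ 2 - 1) = algebraMap F k mu * th * t2 ^ 2 ∧
  algebraMap F k (2 * (2 * p + 2 * q + mu + 2 * ep) + mu * (p / q + q / p)) =
    algebraMap F k (p + ep) * (t1 + t1⁻¹) + algebraMap F k (q + ep) * (t2 + t2⁻¹)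

/-- **FN-C1B** (`x₋ = 0`, `x₊ = z₁ = z₂ = 2β`, `y₁ = y₂ = β`). Proof: `NC.sm` gives `β < M`. `Nrm.ld` with
`w = ![0,2,2,2,1,1]` and `g = M - β > 0`: the monomials with nonzero weight are `4, 5` with growth `M - β` and others with growth
`≤ M - 2β`; so `p/Y₁ + q/Y₂ = 0`, `σ = Y₁/Y₂ = -p/q`. Monomials of maximal growth: `0, 7, 8, 9, 12, 13, 14, 16, 17, 19`.
`t1 = Z₁/X₊`, `t2 = Z₂/X₊`, `th = X₋X₊/(Y₁Y₂)`. `Nrm.ld0` (times `X₋`): edge 4: `q (σ-1/σ) = q th + ph th t1/σ`; edge 5: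
`p (1/σ-σ) = p th + ch th t2 σ`; edge 2: `q (t1-1/t1) = -(1/2) mu th t1/σ`; edge 3: `p (t2-1/t2) = -(1/2) mu th t2 σ`; edge 0:
`2K0 = mu (σ+1/σ) + ph (t1+1/t1) + ch (t2+1/t2)`. Insert `σ = -p/q`. -/
def G_C1B : Prop := ∀ (F k : Type) [Field F] [LinearOrder F] [IsStrictOrderedRing F] [Field k]
  [Algebra F k] (p q mu ep lam : F) (v : Fin 6 → ℤ) (M : ℤ) (ξ : Fin 6 → k),
    NC p q mu ep lam v M ξ → v 0 = 0 → v 1 = 2 * v 4 → v 2 = 2 * v 4 → v 3 = 2 * v 4 →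
      v 5 = v 4 → 0 < v 4 → ∃ th t1 t2 : k, RelC1 p q mu ep th t1 t2

/-- **FN-C1C** (the relations are contradictory). Proof. Case `p = q`: `t1 = p/ph`, `t2 = q/ch = t1` (`th ≠ 0`), and the
last relation gives `K0 + mu = p + ph²/p` with `K0 = 2ph + 2p + mu`: `p (2ph + p + 2mu) = ph²`; with `ph = p + ep`, `ep² = 1`:
`2p² + 2p mu = 1`, impossible for `p ≥ 1`. Case `p ≠ q`: by symmetry (exchange `p, q` and `t1, t2`) let `q > p`;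
`t = q - p`, `s' = p + q`. `δ = t s'/(th p q)`, `h = mu th/2`: `ph t1 = p (1-δ)`, `ch t2 = q (1+δ)` (so `δ ≠ ±1`),
`(1-δ)² (p-h) p = ph²`, `(1+δ)² (q-h) q = ch²`, and the last relation becomes `h = t δ - L`,
`L = s' + 2 ep + mu s'²/(2pq)`; `h δ = mu t s'/(2pq)`. Hence `(2tδ - L)² = L² + 2 mu t² s'/(pq) > 0`, which is the square of
some `b ∈ F` (`SqF`), `2tδ - L = ± A b`, so `δ = A δ'` with `δ' ∈ F`, and `h` too: now all is in `F`, ordered. `δ' h > 0`. If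
`δ' > 0`: `h > 0`, `p - h ≥ 0` by the first equation so `q - h ≥ t`; `t δ' > L > s' + 2 ep = ph + ch`, `1 + δ' > (t + ph +
ch)/t = 2 ch/t` (`t + ph + ch = 2 ch`), so `ch² = (1+δ')² (q-h) q > (4 ch²/t²) t q`, `4q < t = q - p`, impossible. If `δ' < 0`:
`h < 0`, `-h > L > s' + 2 ep`, `(1-δ')² > 1`, so `ph² > p (p + s' + 2 ep)`; `ph² = p² + 2 ep p + 1`: `p s' < 1`, impossible. -/
def G_C1C : Prop := ∀ (F k : Type) [Field F] [LinearOrder F] [IsStrictOrderedRing F] [Field k]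
  [Algebra F k], SqF F → ∀ (p q mu ep : F), ParC p q mu ep → ∀ th t1 t2 : k,
    ¬ RelC1 p q mu ep th t1 t2

/-- **FN-C4A** (`y₁ = z₁ = 0`, `x₋ = x₊ = y₂ = α`, `0 < z₂ < 2α`). Proof: monomials of maximal growth: `2, 4, 6, 8, 9, 11,
12, 15, 16` (`13, 17` are lower because `v 3 < 2 v 0`, `18, 19` have `gr = -v 3`). `a = X₋/Y₂`, `b = X₊/Y₂`, `c = Z₁/Y₁`.
`Nrm.ld0` (times `Y₁`): edge 4: (1) `2K0 = q (a+1/a+b+1/b) + ph c`; edge 2: (2) `2s + mu c²/2 = q (a/b+b/a)`; edge 0: (3)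
`mu (a-1/a) + ph (a/b-b/a)/c = 0`; edge 1: (4) `mu (b-1/b) + ph (b/a-a/b)/c = 0`. Sum: `(a+b)(1-1/(ab)) = 0`.
`a+b = 0`: (3): `a² = 1`; (1): `c = 2K0/ph`; (2): `2s + mu c²/2 = -2q`, impossible in `F`. `ab = 1`: (3):
`(a-1/a)(mu + ph (a+1/a)/c) = 0`. If `a = 1/a`: `a = b = ±1`, (1): `ph c = 2K0 ∓ 4q` is in `F`, (2): `2ph + mu c²/2 = 0`,
impossible. Else `mu c = -ph f`, `f = a+1/a`; (1) `2K0 = 2q f + ph c` gives `c (ph² - 2q mu) = 2K0 ph`; (2):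
`2s = q(f²-2) - mu c²/2`, so `2(s+q) ph² · 2 = mu c² (2q mu - ph²)` and `(ph+2q)(2q mu - ph²) = mu K0²`; with
`K0 = 2ph+2q+mu` the difference is `mu(4ph²+mu²+6 ph q+4 ph mu+4 q mu) + ph³ + 2q ph² > 0`, contradiction. -/
def G_C4A : Prop := ∀ (F k : Type) [Field F] [LinearOrder F] [IsStrictOrderedRing F] [Field k]
  [Algebra F k] (p q mu ep lam : F) (v : Fin 6 → ℤ) (M : ℤ) (ξ : Fin 6 → k),
    NC p q mu ep lam v M ξ → v 2 = 0 → v 4 = 0 → v 1 = v 0 → v 5 = v 0 → 0 < v 0 → 0 < v 3 →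
      v 3 < 2 * v 0 → False

/-- **FN-C4B** (`y₁ = z₁ = 0`, `x₋ = x₊ = y₂ = α`, `z₂ = 2α`). Proof: monomials of maximal growth: those of `G_C4A` and
`13, 17`. `th = Z₂Y₁/Y₂²`. (1), (2) as in `G_C4A`; edge 0: (3) `mu (a-1/a) + ph (a/b-b/a)/c = ch th/(ab)`; edge 1: (4)
`mu (b-1/b) + ph (b/a-a/b)/c = ch th/(ab)`; edge 5: (5) `p (a-1/a+b-1/b) = -ch th`; edge 3: (6) `mu/2 + p/(ab) = 0`. So
`ab = -2p/mu`, `a+b ≠ 0` by (5). (3)-(4): `(a-b)(mu (1+1/(ab)) + 2ph (a+b)/(a b c)) = 0`.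
`a = b`: `a² = -2p/mu`, (2): `mu c²/2 = 2q - 2s = -2ph`, `c² = -4ph/mu`, (1): `2K0 = U + W`, `U = 2q a (2p-mu)/(2p)`,
`W = ph c`; `U² = A u`, `W² = A w'` with `u ≤ 0`, `w' < 0` in `F`; `(2UW)² = 4 u w'` and `2UW = 4K0² - u - w'`:
`4 u w' = (4K0² + |u| + |w'|)² > (|u|+|w'|)² ≥ 4 u w'`, contradiction.
`a ≠ b`: `g = a+b`: `(mu-2p) c + 2ph g = 0`, `g ≠ 0`, so `mu ≠ 2p`, `c = 2ph g/(2p-mu)`; (1):
`2K0 = g (q (2p-mu)/(2p) + 2ph²/(2p-mu))`, so `g` and `c` are in `F`; (2): `2s + mu c²/2 = q (-mu g²/(2p) - 2)`: the left side is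
positive, the right side negative. -/
def G_C4B : Prop := ∀ (F k : Type) [Field F] [LinearOrder F] [IsStrictOrderedRing F] [Field k]
  [Algebra F k] (p q mu ep lam : F) (v : Fin 6 → ℤ) (M : ℤ) (ξ : Fin 6 → k),
    NC p q mu ep lam v M ξ → v 2 = 0 → v 4 = 0 → v 1 = v 0 → v 5 = v 0 → 0 < v 0 →
      v 3 = 2 * v 0 → False

/-- **FN-C0C** (all positive: `z₁ = 2y₁` or `z₂ = 2y₂`). Proof: `Y_j` = the terms of `Nrm.ld0` (zero if the growth is not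
maximal; no `1/x_e` is of maximal growth; in each of the four triangles at most one monomial is). If `v 2 ≠ 2 v 4` and
`v 3 ≠ 2 v 5`: edge 2: the triangle `z₁, x₋, x₊` has no maximal monomial; edge 3: nor has `z₂, x₋, x₊`; edge 0: nor `x₋, y₁, y₂`;
edge 1: nor `x₊, y₁, y₂`. This contradicts `Nrm.ex`. -/
def G_C0C : Prop := ∀ (F k : Type) [Field F] [LinearOrder F] [IsStrictOrderedRing F] [Field k]
  [Algebra F k] (p q mu ep lam : F) (v : Fin 6 → ℤ) (M : ℤ) (ξ : Fin 6 → k),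
    NC p q mu ep lam v M ξ → (∀ e, 0 < v e) → v 2 = 2 * v 4 ∨ v 3 = 2 * v 5

/-- **FN-C0A** (all positive, `z₂ = 2y₂`, `z₁ < 2y₁`). Proof: `T4 = Y13 ≠ 0`, `Y12 = 0`. Edge 2: the triangle `z₁, x₋, x₊` has no
maximal monomial (its terms `±T5` are alone). Edge 3: `T4 + s6 T6 = 0`: the triangle `z₂, x₋, x₊` is degenerate, `T6 ≠ 0`. Edges
0, 1: `s1 T1 + s6 T6 = 0`, `s2 T2 + s6 T6 = 0`: the triangles `x₋, y₁, y₂` and `x₊, y₁, y₂` are degenerate. 27 combinations.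
If `v 3 = v 0 + v 1`: all combinations are contradictory (`omega`, using `v 2 ≥ |v 0 - v 1|` and `v 2 < 2 v 4`) except
`v 4 = v 0 + v 5, v 4 = v 1 + v 5` (`v 0 = v 1 = v 5`): there edge 3: `T6 = -T4`; edge 0: `-T1 - T6 = 0`; edge 1:
`-T2 - T6 = 0`; edge 4: `T1 + T2 = 0`; so `T4 = 0`, contradiction. If `v 0 = v 3 + v 1`: only the first alternative of the
conclusion is compatible; if `v 1 = v 3 + v 0`: only the second. -/
def G_C0A : Prop := ∀ (F k : Type) [Field F] [LinearOrder F] [IsStrictOrderedRing F] [Field k]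
  [Algebra F k] (p q mu ep lam : F) (v : Fin 6 → ℤ) (M : ℤ) (ξ : Fin 6 → k),
    NC p q mu ep lam v M ξ → (∀ e, 0 < v e) → v 3 = 2 * v 5 → v 2 < 2 * v 4 →
      (v 0 = v 3 + v 1 ∧ v 0 = v 4 + v 5 ∧ v 4 = v 1 + v 5) ∨
      (v 1 = v 3 + v 0 ∧ v 1 = v 4 + v 5 ∧ v 4 = v 0 + v 5)

/-- **FN-C0B** (all positive, `z₁ = 2y₁`, `z₂ = 2y₂`). Proof: edge 2: `T3 + s5 T5 = 0` with `T3 = Y12 ≠ 0`: the triangle
`z₁, x₋, x₊` is degenerate; edge 3: so is `z₂, x₋, x₊`. Nine combinations. `v 2 = v 0 + v 1` and `v 3 = v 0 + v 1`: then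
`v 4 = v 5`, `v 0 + v 1 = 2 v 4`, the triangles `x₋, y₁, y₂` and `x₊, y₁, y₂` are not degenerate, edge 4: `-2 Y12 = 0`,
contradiction. `v 2 = v 0 + v 1`, `v 0 = v 3 + v 1`: first alternative; `v 2 = v 0 + v 1`, `v 1 = v 3 + v 0`: second;
`v 0 = v 2 + v 1`, `v 3 = v 0 + v 1`: third; `v 1 = v 2 + v 0`, `v 3 = v 0 + v 1`: fourth; the others: `omega`. -/
def G_C0B : Prop := ∀ (F k : Type) [Field F] [LinearOrder F] [IsStrictOrderedRing F] [Field k]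
  [Algebra F k] (p q mu ep lam : F) (v : Fin 6 → ℤ) (M : ℤ) (ξ : Fin 6 → k),
    NC p q mu ep lam v M ξ → (∀ e, 0 < v e) → v 3 = 2 * v 5 → v 2 = 2 * v 4 →
      (v 4 = v 5 + v 1 ∧ v 0 = v 4 + v 5) ∨ (v 4 = v 5 + v 0 ∧ v 1 = v 4 + v 5) ∨
      (v 5 = v 4 + v 1 ∧ v 0 = v 4 + v 5) ∨ (v 5 = v 4 + v 0 ∧ v 1 = v 4 + v 5)

/-- **FN-C0I** (face (i)). Proof: `a = v 5`, `b = v 1`, `v 4 = a+b`, `v 0 = 2a+b`, `v 3 = 2a`, `c = v 2`, `2a < c < 2a+2b`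
(`c > 2a`: otherwise the monomial `15` has `gr = v 0 - v 2 - v 1 = 0`; exclude this: `Nrm.ld0` for the edge 2 has then only the
terms `15` (and none of `14, 12, 16, 2`), contradiction). `Nrm.ld0` for edge 4: `Y6 = Y10` gives `X₋X₊ = Y₁²`.
Weight `e₂` (`Pi.single 2 1`): `12, 14` growth `g2 = M+c-2a-2b` (leading sum `-p ph (mu/2+q) Z₁/Y₁²`), `15` growth
`g3 = M+2a-c`, the others (`2, 16`) less than `g3`. Weight `wb = ![1,1,0,0,1,0]`: `1`: growth `M-b`; `12, 14`: `g2`; the others less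
than `M-b`. Case `g2 > g3`, i.e. `c > 2a+b`: weight `e₂`: `g2 = 0` (`Nrm.ld` at `g2` if `g2 > 0`; `Nrm.neg` if `g2 < 0`), and
`Nrm.ld` at `g = 0`: `(mu/2+q) Z₁/Y₁² = lam`. `M - b < 0`. `Nrm.ld` for `wb` at `0`: `p ph (mu+2q) Z₁/Y₁² = -lam (4pq+2p mu)`. So
`2 ph = -(4q+2mu)`, impossible. Case `g3 > g2`: weight `e₂`, `15` dominates: `g3 = 0`; `M - b < 0`, `g2 < 0`: `Nrm.neg` for `wb`.
Case `g2 = g3`, `c = 2a+b`: weight `![2,0,2,2,1,1]`, monomial `5` (`1/y₂`) dominates: `a = M`. Then `NC.sm` is violated: the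
difference is `4pqb + p ph (M+b) + q ch M + 2p mu b > 0`. -/
def G_C0I : Prop := ∀ (F k : Type) [Field F] [LinearOrder F] [IsStrictOrderedRing F] [Field k]
  [Algebra F k] (p q mu ep lam : F) (v : Fin 6 → ℤ) (M : ℤ) (ξ : Fin 6 → k),
    NC p q mu ep lam v M ξ → (∀ e, 0 < v e) → v 3 = 2 * v 5 → v 2 < 2 * v 4 →
      v 0 = v 3 + v 1 → v 4 = v 1 + v 5 → False

/-- **FN-C0J** (face (ii)). Proof: `a = v 5`, `b = v 1`, `v = (2a+b, b, 2a+2b, 2a, a+b, a)`. `Nrm.dm0` with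
`w = ![2,0,2,2,1,1]`, monomial `5`: `a = M`; with `w = ![1,1,2,0,1,0]`, monomial `1`: `b = M`. Then all `v e ≥ M`, `v 0 = 3M`:
contradiction to `NC.sm`. -/
def G_C0J : Prop := ∀ (F k : Type) [Field F] [LinearOrder F] [IsStrictOrderedRing F] [Field k]
  [Algebra F k] (p q mu ep lam : F) (v : Fin 6 → ℤ) (M : ℤ) (ξ : Fin 6 → k),
    NC p q mu ep lam v M ξ → (∀ e, 0 < v e) → v 3 = 2 * v 5 → v 2 = 2 * v 4 →
      v 4 = v 5 + v 1 → v 0 = v 4 + v 5 → False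

/-- **FN-C0** (all positive; take `G_CSG`, `G_CTA`, `G_C0C`, `G_C0A`, `G_C0B`, `G_C0I`, `G_C0J` as hypotheses). Proof: by
`G_C0C` and `G_CTA` let `v 3 = 2 v 5`. If `v 2 < 2 v 4`: `G_C0A`, `G_C0I` and `G_CSG`. If `v 2 = 2 v 4`: `G_C0B`, `G_C0J`,
`G_CSG`, `G_CTA`. -/
def G_C0 : Prop := ∀ (F k : Type) [Field F] [LinearOrder F] [IsStrictOrderedRing F] [Field k]
  [Algebra F k] (p q mu ep lam : F) (v : Fin 6 → ℤ) (M : ℤ) (ξ : Fin 6 → k),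
    NC p q mu ep lam v M ξ → (∀ e, 0 < v e) → False

/-- **FN-CCL** (type `BC₂`, conclusion; take `G_CSG`, `G_CTA`, `G_C5`, `G_C6`, `G_C3`, `G_C2`, `G_C1A`, `G_C1B`, `G_C1C`,
`G_C4A`, `G_C4B`, `G_C0` as hypotheses). Proof: the inequalities `NC.tri`. `v = 0` contradicts `NC.sm`. (a) `v 4 = 0` (or
`v 5 = 0`: `G_CTA`): `v 2 = 0`, `v 0 = v 5 = v 1 = α`; `α = 0` would give `v 3 = 0`, `v = 0`; so `α > 0`; `v 3 = 0`: `G_C6`;
`0 < v 3 < 2α`: `G_C4A`; `v 3 = 2α`: `G_C4B`. (b) `v 4, v 5 > 0`, `v 0 = 0` (or `v 1 = 0`: `G_CSG`): `v 4 = v 5 = β`,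
`v 1 = v 2 = v 3 = α ≤ 2β`; `α = 0`: `G_C5`; `0 < α < 2β`: `G_C1A`; `α = 2β`: `G_C1B`, `G_C1C`. (c) `v 4, v 5, v 0, v 1 > 0`,
`v 2 = 0` (or `v 3 = 0`: `G_CTA`): `v 0 = v 1`; `v 3 = 0`: `G_C3`; `v 3 > 0`: `G_C2`. (d) all positive: `G_C0`. -/
def G_CCL : Prop := ∀ (F k : Type) [Field F] [LinearOrder F] [IsStrictOrderedRing F] [Field k]
  [Algebra F k], SqF F → ∀ (p q mu ep lam : F) (v : Fin 6 → ℤ) (M : ℤ) (ξ : Fin 6 → k),
    NC p q mu ep lam v M ξ → False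

/-- **FN-CFN** (type `BC₂`: finiteness over any ordered field with square roots; take `G_PLC`, `G_NRM`, `G_CCL` as
hypotheses). -/
def G_CFN : Prop := ∀ (F : Type) [Field F] [LinearOrder F] [IsStrictOrderedRing F], SqF F →
  ∀ (p q mu ep lam : F), ParC p q mu ep → lam ≠ 0 →
    (Sols mC (cC p q mu ep) (dC p q mu ep) lam).Finite

end Pool.Agent.Helper61.FN
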