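import Pool.Agent.Helper61.FN.Tools

/-!
# Project FN (MP_06d934_gt): goals, first part (general principle, type `A₃`)

Paper: team-store FN_paper.md. Tools with proofs: `Pool.Agent.Helper61.FN.Tools` (`Nrm.neg`, `Nrm.dom`, `Nrm.dm0`,
`Nrm.ld`, `Nrm.ld0`, `NA.tri`, `NA.sm`, `NC.tri`, `NC.sm`, and a worked example `goalAB1`).
-/

set_option autoImplicit false

namespace Pool.Agent.Helper61.FN

open Finset WithZero

/-! ### Section 0: the place -/

/-- **FN-PRM** (an irreducible component of positive dimension). Proof: let `I` be the vanishing ideal of `Z`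
(`MvPolynomial.vanishingIdeal` or by hand); it has finitely many minimal primes (Noetherian ring:
`Ideal.finite_minimalPrimes_of_isNoetherianRing`). For `z ∈ Z` the kernel `m_z` of `eval z` contains `I`, so it contains a
minimal prime `P_z` of `I` (`Ideal.exists_minimalPrimes_le`). `X e ∉ P_z` because `z e ≠ 0`. Suppose all `X e` are algebraic
modulo `P_z` for all `z ∈ Z`. The domain `MvPolynomial E F ⧸ P_z` is generated by finitely many algebraic elements, so it is
algebraic over `F`, hence a field, `P_z` is maximal, `P_z = m_z`, and `z ↦ m_z` is injective (`X e - C (z e) ∈ m_z`).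
So `z ↦ P_z` is an injective map of the infinite set `Z` into a finite set. Contradiction. -/
def G_PRM : Prop := ∀ (F E : Type) [Field F] [Fintype E] (Z : Set (E → F)), Z.Infinite →
  (∀ z ∈ Z, ∀ e, z e ≠ 0) → ∃ P : Ideal (MvPolynomial E F), P.IsPrime ∧
    (∀ p : MvPolynomial E F, (∀ z ∈ Z, MvPolynomial.eval z p = 0) → p ∈ P) ∧
    (∀ e, MvPolynomial.X e ∉ P) ∧
    ∃ e, Transcendental F (Ideal.Quotient.mk P (MvPolynomial.X e))

/-- **FN-FLD** (the function field; take `G_PRM` as hypothesis). Proof: `K` = fraction field of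
`MvPolynomial E F ⧸ P`, `x e` = class of `X e`, nonzero. `K` is generated as a field by the `x e`. Transcendence is kept by the
injective map to the fraction field. Last claim: multiply the identity by a monomial `∏ X_e ^ N` with `N` large; the
resulting polynomial vanishes on `Z`, so it is in `P`; divide in `K`. -/
def G_FLD : Prop := ∀ (F E : Type) [Field F] [Fintype E] (Z : Set (E → F)), Z.Infinite →
  (∀ z ∈ Z, ∀ e, z e ≠ 0) → ∃ (K : Type) (_ : Field K) (_ : Algebra F K) (x : E → K),
    (∀ e, x e ≠ 0) ∧ IntermediateField.adjoin F (Set.range x) = ⊤ ∧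
    (∃ e, Transcendental F (x e)) ∧
    ∀ (J : Type) [Fintype J] (c : J → F) (m : J → E → ℤ) (c0 : F),
      (∀ z ∈ Z, ∑ j, c j * mon z (m j) = c0) →
        ∑ j, algebraMap F K (c j) * mon x (m j) = algebraMap F K c0

/-- **FN-SUB** (reduction to transcendence degree one). Proof: the singleton `{x e₀}` is algebraically independent over
`F`; extend it to a transcendence basis `s` of `K / F` (`exists_isTranscendenceBasis_superset` or similar; a subset of `K`
containing `x e₀`). `F' = F(s ∖ {x e₀})`. `x e₀` is transcendental over `F'`, `K` is algebraic over `F(s) = F'(x e₀)` and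
finitely generated (by the `x e`), so it is finite over `F'(x e₀)`. -/
def G_SUB : Prop := ∀ (F K E : Type) [Field F] [Field K] [Algebra F K] [Fintype E] (x : E → K)
  (e₀ : E), IntermediateField.adjoin F (Set.range x) = ⊤ → Transcendental F (x e₀) →
    ∃ F' : IntermediateField F K, Transcendental F' (x e₀) ∧
      FiniteDimensional (IntermediateField.adjoin F' {x e₀}) K

/-- **FN-DER** (the derivation `t d/dt`). Proof: `F(t)` (adjoin) is isomorphic to the field of rational functions,
which has the derivation `X d/dX` over `F`; `K` is finite separable over `F(t)` (characteristic 0), so the derivation extends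
(Mathlib: `Differential` / `differentialFiniteDimensional`, `uniqueDifferentialAlgebraFiniteDimensional` in
`Mathlib/FieldTheory/Differential/Basic.lean`; or formal etaleness, or Kaehler differentials: `D` exists iff it does on a
separable extension). The derivation of `RatFunc F`: `X` times the localised `Polynomial.derivative` (or transport of
structure; any construction is fine). -/
def G_DER : Prop := ∀ (F K : Type) [Field F] [CharZero F] [Field K] [Algebra F K] (t : K),
  Transcendental F t → FiniteDimensional (IntermediateField.adjoin F {t}) K →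
    ∃ D : Derivation F K K, D t = t

/-- **FN-DED** (the Dedekind domain). Proof: `R` = integral closure of `F[t] = Algebra.adjoin F {t}` in `K` as an
`F`-subalgebra. `F[t]` is a polynomial ring, a PID with fraction field `F(t)`; `K / F(t)` is finite separable: `R` is Dedekind
(`integralClosure.isDedekindDomain`), its fraction field is `K` (`integralClosure.isFractionRing_of_finite_extension`),
it is a finite `F[t]`-module (`IsIntegralClosure.isNoetherian`); see `Mathlib/NumberTheory/FunctionField.lean`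
(`FunctionField.ringOfIntegers`), which has all of this for `F[X]`. `t⁻¹ ∉ R`: otherwise `t⁻¹` is integral over `F[t]`
and in `F(t)`, so in `F[t]` (integrally closed), but `t` is not a unit of `F[t]` (`t` transcendental). -/
def G_DED : Prop := ∀ (F K : Type) [Field F] [CharZero F] [Field K] [Algebra F K] (t : K),
  Transcendental F t → FiniteDimensional (IntermediateField.adjoin F {t}) K →
    ∃ R : Subalgebra F K, Ded F K t R

/-- **FN-PLV** (the valuation). Proof: `t ∈ R` is not a unit, `t ≠ 0`: there is a maximal ideal `p ∋ t`, a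
`HeightOneSpectrum R` (`t ≠ 0`). `v = p.valuation K` (`Mathlib/RingTheory/DedekindDomain/AdicValuation.lean`).
`int`: `valuation_le_one`. `vt`: `valuation_lt_one_iff_mem`. `triv`: `c` and `c⁻¹` are in `R`. `uni`:
`valuation_exists_uniformizer`. `loc`: `exists_primeCompl_mul_eq_of_integer`. `res`: by `loc` write `y s = r`, `v s = 1`.
`R ⧸ p` is a domain, integral over `F` (every `r ∈ R` is a root of a monic polynomial with coefficients in `F[t]`; modulo `p`
the coefficients are in `F` because `t ∈ p` and `F[t] = F + t F[t]`), so it is a field, algebraic over `F`; the class of `r/s` in it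
is algebraic over `F`; let `h` be its minimal polynomial over `F`: irreducible, separable (characteristic 0), so
`h(class) = 0 ≠ h'(class)`. `h(y)` has `v < 1` and `h'(y)` has `v = 1`: e.g. `s ^ N h(y) ∈ R` is in `p`, and
`s ^ N h'(y) ∈ R` is not in `p`. -/
def G_PLV : Prop := ∀ (F K : Type) [Field F] [CharZero F] [Field K] [Algebra F K] (t : K)
  (R : Subalgebra F K), t ≠ 0 → Ded F K t R →
    ∃ v : Valuation K (WithZero (Multiplicative ℤ)), DVal F K t R v

/-- **FN-BET** (the derivation is logarithmic). Additively `ν = -log v`. (a) There is `B` with `v (D r) ≤ exp B` for all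
`r ∈ R`: `r = ∑ a_i e_i` with `e_i` in the finite set of `Ded.fin` and `a_i ∈ F[t]`; `D (F[t]) ⊆ F[t]` (`D t = t`), `v ≤ 1` on
`F[t] ⊆ R`, and `v (e_i)`, `v (D e_i)` are finitely many values. (b) By `DVal.loc`, for `v y ≤ 1`: `y s = r`, `v s = 1`,
`D y = (s D r - r D s) / s ^ 2`, so `v (D y) ≤ exp B` too. (c) Let `b` be the maximum of the values `v (D y)`, `v y ≤ 1`
(attained, the value group is discrete and the values are bounded; or all `D y = 0`, impossible since `D t = t`). Claim:
`v (D y) ≤ exp(-1) * max b 1` for all `v y ≤ 1`. If `v y < 1`, `v y = exp (-a)`, `a ≥ 1`, `v t = exp (-N)`, `N ≥ 1`: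
`w = y ^ N * t ^ (-a)` has `v w = 1` and `D w / w = N • (D y / y) - a`, so
`v (D y / y) ≤ max (v (D w)) (v a) ≤ max b 1` (`v N = v` of a nonzero constant `= 1`), hence
`v (D y) ≤ exp (-a) * max b 1`. If `v y = 1` or in general: take `h` from `DVal.res`; `v (h y) < 1`, `D (h y) = h'(y) D y`
(`Derivation` and `aeval`), so `v (D y) = v (D (h y)) ≤ exp(-1) * max b 1` by the first part. (d) If `b ≥ 1` the maximum is
attained by some `y` and `b ≤ exp(-1) * b`: contradiction. So `b < 1`. -/
def G_BET : Prop := ∀ (F K : Type) [Field F] [CharZero F] [Field K] [Algebra F K] (t : K)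
  (R : Subalgebra F K) (v : Valuation K (WithZero (Multiplicative ℤ))) (D : Derivation F K K),
    t ≠ 0 → Ded F K t R → DVal F K t R v → D t = t → ∀ y, v y ≤ 1 → v (D y) < 1

/-- **FN-LOG** (summary; take `G_SUB`, `G_DER`, `G_DED`, `G_PLV`, `G_BET` as hypotheses). Apply them to `F'` and
`t = x e₀` and restrict the scalars of `D` from `F'` to `F` (`Derivation.restrictScalars`). -/
def G_LOG : Prop := ∀ (F K E : Type) [Field F] [CharZero F] [Field K] [Algebra F K] [Fintype E]
  (x : E → K) (e₀ : E), IntermediateField.adjoin F (Set.range x) = ⊤ → Transcendental F (x e₀) →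
    ∃ (v : Valuation K (WithZero (Multiplicative ℤ))) (D : Derivation F K K), LogD F K (x e₀) v D

/-- **FN-RES** (the residue of a logarithmic differential). Proof: with `w = y ^ N * t ^ a` (integer powers; `N ≥ 1`),
`v w = 1` and `D w = w * (N • (D y / y) + a)` (using `D t = t`), so `v (N D y / y + a) = v (D w) < 1`. -/
def G_RES : Prop := ∀ (F K : Type) [Field F] [CharZero F] [Field K] [Algebra F K] (t : K)
  (v : Valuation K (WithZero (Multiplicative ℤ))) (D : Derivation F K K), t ≠ 0 →
    LogD F K t v D → ∀ (y : K) (a N : ℤ), y ≠ 0 → v y = exp a → v t = exp (-N) → 0 < N →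
      v ((N : K) * (D y / y) + (a : K)) < 1

/-- **FN-LED** (leading coefficients). Proof: `V = v.valuationSubring` (local ring), `k` = its residue field, `F → k` through
`F → V` (`v c ≤ 1`). `u e` with `v (x e) = exp (u e)` (`x e ≠ 0`). `v π = exp (-1)`. `ξ e` = residue of
`x e * π ^ (u e)` (value 1). Identity: multiply by `π ^ g`; `π ^ g * mon x m = π ^ (g - gr m u) * ∏ (x e * π ^ (u e)) ^ (m e)`; the
terms with `c j ≠ 0` are in `V`, those with `gr (m j) u < g` are in the maximal ideal, the right side `π ^ g * c0` is `c0` for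
`g = 0` and in the maximal ideal for `g > 0`; take residues. -/
def G_LED : Prop := ∀ (F E K : Type) [Field F] [Fintype E] [Field K] [Algebra F K]
  (v : Valuation K (WithZero (Multiplicative ℤ))) (x : E → K),
    (∀ c : F, c ≠ 0 → v (algebraMap F K c) = 1) → (∃ π : K, v π = exp (-1 : ℤ)) →
    (∀ e, x e ≠ 0) → ∃ (k : Type) (_ : Field k) (_ : Algebra F k) (u : E → ℤ) (ξ : E → k),
      (∀ e, ξ e ≠ 0) ∧ (∀ e, v (x e) = exp (u e)) ∧
      ∀ (J : Type) [Fintype J] (c : J → F) (m : J → E → ℤ) (c0 : F) (g : ℤ),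
        ∑ j, algebraMap F K (c j) * mon x (m j) = algebraMap F K c0 → 0 ≤ g →
        (∀ j, c j ≠ 0 → gr (m j) u ≤ g) →
          ∑ j, (if gr (m j) u = g then algebraMap F k (c j) * mon ξ (m j) else 0) =
            if g = 0 then algebraMap F k c0 else 0

/-- **FN-PLC** (Theorem 0 of the paper; take `G_FLD`, `G_LOG`, `G_RES`, `G_LED` as hypotheses). Proof: `Z = Sols m c d lam`;
`K`, `x` from `G_FLD`, `e₀` with `x e₀` transcendental, `v, D` from `G_LOG`, `k, u, ξ` from `G_LED`. In `K`:
`(E_e) ∑ j, c j * m j e * mon x (m j) = -lam * d e`. For `w : E → F`: `∑ j, c j * pr (m j) w * mon x (m j) = -lam ∑ d w`, which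
with `G_LED` (coefficients `c j * pr (m j) w`) is `Led m c d lam u 0 ξ`. With `w = 1`: `∑ j, c j * mon x (m j) = lam ∑ d e`
(because `∑ e, m j e = -1`), so its `D` is zero; but `D (mon x m) = mon x m * ∑ e, m e * (D (x e) / x e)`, so by `(E_e)`
`0 = -lam * ∑ e, d e * (D (x e) / x e)`, and `∑ e, d e * (D (x e)/x e) = 0`. `v (x e₀) < 1` gives `v (x e₀) = exp (-N)`,
`N ≥ 1` and `u e₀ = -N ≠ 0`. By `G_RES` all `N * (D (x e)/x e) + u e` have `v < 1`, so
`∑ e, d e * u e = ∑ e, d e * (N * (D (x e)/x e) + u e)` has `v < 1`; it is in `F`, where `v` is trivial: it is zero. -/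
def G_PLC : Prop := ∀ (F E J : Type) [Field F] [CharZero F] [Fintype E] [Fintype J]
  (m : J → E → ℤ) (c : J → F) (d : E → F) (lam : F), lam ≠ 0 → (∀ j, ∑ e, m j e = -1) →
    (Sols m c d lam).Infinite →
      ∃ (k : Type) (_ : Field k) (_ : Algebra F k) (u : E → ℤ) (ξ : E → k), Plc m c d lam u ξ

/-- **FN-NRM** (normalisation). Proof: `M` = maximum over `j` of `gr (m j) u` (`J` is nonempty: there is `e` with
`u e ≠ 0`, and a `j` for it). As `∑ d e * u e = 0`, `d e > 0` and not all `u e` are zero, some `u e < 0`; the monomial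
`Pi.single e (-1)` has growth `-u e > 0`. So `M > 0`. `v = u + M`; `gr (m j) v = gr (m j) u - M` because `∑ e, m j e = -1`. -/
def G_NRM : Prop := ∀ (F E J k : Type) [Field F] [LinearOrder F] [IsStrictOrderedRing F]
  [Fintype E] [DecidableEq E] [Fintype J] [Field k] [Algebra F k] (m : J → E → ℤ) (c : J → F)
  (d : E → F) (lam : F) (u : E → ℤ) (ξ : E → k), (∀ j, ∑ e, m j e = -1) → (∀ e, 0 < d e) →
    lam ≠ 0 → (∀ e, ∃ j, m j = Pi.single e (-1)) → Plc m c d lam u ξ →
      ∃ (v : E → ℤ) (M : ℤ), Nrm m c d lam v M ξ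

/-! ### Section 1: type `A₃` -/

/-- **FN-APM** (permutations of the blocks). Proof: the system is symmetric. `pe σ` is a permutation of the edges
(inverse `pe σ⁻¹`); there is a permutation `q` of the 18 monomials with `mA (q j) (pe σ e) = mA j e` and
`cA n (q j) = cA (n ∘ σ) j`, and `dA n (pe σ e) = dA (n ∘ σ) e`. Reindex all sums. E.g. prove it for the three
transpositions `(01), (12), (23)` with explicit tables (`decide`, `fin_cases`, `ring`) and use that they generate; or
find `q` for all 24 permutations by `decide`. (It may help to prove a general reindexing lemma for `Nrm` with `E ≃ E`,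
`J ≃ J` first, it is also what `G_CSG`, `G_CTA` need.) -/
def G_APM : Prop := ∀ (F k : Type) [Field F] [LinearOrder F] [IsStrictOrderedRing F] [Field k]
  [Algebra F k] (n : Fin 4 → F) (lam : F) (v : Fin 6 → ℤ) (M : ℤ) (ξ : Fin 6 → k)
  (σ : Equiv.Perm (Fin 4)), NA n lam v M ξ →
    NA (fun i ↦ n (σ i)) lam (fun e ↦ v (pe σ e)) M (fun e ↦ ξ (pe σ e))

/-- **FN-AB3** (the classes `{0,1}, {2,3}`; compare `goalAB1` in Tools). Proof: `α = v 1`. `NA.sm`:
`α (n0 n2 + n0 n3 + n1 n2 + n1 n3) = M * (all six)`, so `M < α`. `Nrm.neg` with `w = ![0, 1, 1, 1, 1, 0]`: all monomials with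
nonzero weight have growth `M - α` or `M - 2α`. -/
def G_AB3 : Prop := ∀ (F k : Type) [Field F] [LinearOrder F] [IsStrictOrderedRing F] [Field k]
  [Algebra F k] (n : Fin 4 → F) (lam : F) (v : Fin 6 → ℤ) (M : ℤ) (ξ : Fin 6 → k),
    NA n lam v M ξ → v 0 = 0 → v 5 = 0 → v 2 = v 1 → v 3 = v 1 → v 4 = v 1 → 0 < v 1 → False

/-- **FN-AB2** (the classes `{0,1}, {2}, {3}`). Paper, section 1, (B2), with `a, b, c, d = 0, 1, 2, 3`: `α = v 1 = v 3`,
`β = v 2 = v 4`, `γ = v 5`, `ρ = ξ 1 / ξ 3`, `σ = ξ 2 / ξ 4`. Use `Nrm.ld0` for the edges `0 .. 5` (write it out with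
`Fin.sum_univ_succ`, `gr6`, `mA`, `cA`; the conditions are decided by `omega` in each of the four cases: strict, `γ = α+β`,
`α = β+γ`, `β = α+γ`). Multiply by `ξ 0` and `2/(n0 n1)` etc.:
edge 0: `2N = n2 (ρ+1/ρ) + n3 (σ+1/σ)`; edge 1: `n1 (ρ-1/ρ) = n3 θ`; edge 2: `n1 (σ-1/σ) = n2 η`; edge 5 as in the paper,
`θ, η` as in the paper. Strict case: `ρ^2 = σ^2 = 1`, `N = ± n2 ± n3`, impossible. `γ = α+β`: `ρ σ = - n0/n1` and
`n2 ρ + n3/σ = N = n3 σ + n2/ρ` give `(n0 n2 - n1 n3)(n1 n2 - n0 n3) = N^2 n0 n1`; `α = β+γ`: `n0 ρ = - n1 σ`,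
`n2 ρ + n3 σ = N = n2/ρ + n3/σ` give `(n0 n3 - n1 n2)(n1 n3 - n0 n2) = N^2 n0 n1`; `β = α+γ`: the same with `2, 3`
exchanged. The left side is `n0 n1 (n2^2+n3^2) - n2 n3 (n0^2+n1^2) < N^2 n0 n1`. (The identities are in `k`, with
`algebraMap F k` injective; the final identities are images of identities in `F`.) -/
def G_AB2 : Prop := ∀ (F k : Type) [Field F] [LinearOrder F] [IsStrictOrderedRing F] [Field k]
  [Algebra F k] (n : Fin 4 → F) (lam : F) (v : Fin 6 → ℤ) (M : ℤ) (ξ : Fin 6 → k),
    NA n lam v M ξ → v 0 = 0 → v 3 = v 1 → v 4 = v 2 → 0 < v 1 → 0 < v 2 → 0 < v 5 → False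

/-- **FN-ALN** (line order `0, 1, 2, 3`). Proof: steps `r = v 0, s = v 3, t = v 5`. `Nrm.dm0` with `w = ![1,1,1,0,0,0]` and the
monomial `0` (`1/x₀₁`, growth `M - r`): `r = M`. `w = ![0,0,1,0,1,1]` and monomial `5`: `t = M`. `w = ![0,1,1,1,1,0]` and
monomial `3`: `s = M`. Then all `v e ≥ M` and `v 1 = 2M > M`, contradiction to `NA.sm`. -/
def G_ALN : Prop := ∀ (F k : Type) [Field F] [LinearOrder F] [IsStrictOrderedRing F] [Field k]
  [Algebra F k] (n : Fin 4 → F) (lam : F) (v : Fin 6 → ℤ) (M : ℤ) (ξ : Fin 6 → k),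
    NA n lam v M ξ → 0 < v 0 → 0 < v 3 → 0 < v 5 → v 1 = v 0 + v 3 → v 4 = v 3 + v 5 →
      v 2 = v 0 + v 3 + v 5 → False

/-- **FN-ADG** (all distances positive: all triangles are degenerate). Proof: by `Nrm.ex` some monomial has
`gr (m j) v = 0`; it is not an edge monomial (`v e > 0`), so some triangle is degenerate. In a triangle at most one of the
three monomials has `gr = 0` (else a distance is 0). Every edge is in exactly two triangles: in `Nrm.ld0` of an edge of a
degenerate triangle its monomial gives a nonzero term, so the other triangle at this edge is degenerate too. Apply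
this to the three edges. -/
def G_ADG : Prop := ∀ (F k : Type) [Field F] [LinearOrder F] [IsStrictOrderedRing F] [Field k]
  [Algebra F k] (n : Fin 4 → F) (lam : F) (v : Fin 6 → ℤ) (M : ℤ) (ξ : Fin 6 → k),
    NA n lam v M ξ → (∀ e, 0 < v e) →
      (v 0 = v 1 + v 3 ∨ v 1 = v 0 + v 3 ∨ v 3 = v 0 + v 1) ∧
      (v 0 = v 2 + v 4 ∨ v 2 = v 0 + v 4 ∨ v 4 = v 0 + v 2) ∧
      (v 1 = v 2 + v 5 ∨ v 2 = v 1 + v 5 ∨ v 5 = v 1 + v 2) ∧
      (v 3 = v 4 + v 5 ∨ v 4 = v 3 + v 5 ∨ v 5 = v 3 + v 4)

/-- **FN-ACY** (the 4-cycle `0, 1, 2, 3`). Proof: the degenerate monomials are `7` (triangle 012, long 02 = edge 1),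
`11` (013, long 13 = edge 4), `12` (023, long 02), `16` (123, long 13). With `Y_j = c_j ξ^{m_j}`: `Nrm.ld0` for edge 1:
`Y7 + Y12 = 0`; edge 4: `Y11 + Y16 = 0`; edge 0: `Y7 + Y11 = 0`; edge 3: `Y7 + Y16 = 0`. So `2 Y7 = 0`; contradiction. -/
def G_ACY : Prop := ∀ (F k : Type) [Field F] [LinearOrder F] [IsStrictOrderedRing F] [Field k]
  [Algebra F k] (n : Fin 4 → F) (lam : F) (v : Fin 6 → ℤ) (M : ℤ) (ξ : Fin 6 → k),
    NA n lam v M ξ → 0 < v 0 → 0 < v 3 → v 5 = v 0 → v 2 = v 3 → v 1 = v 0 + v 3 →
      v 4 = v 0 + v 3 → False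

/-- **FN-AAL** (all distances positive; take `G_APM`, `G_ALN`, `G_ADG`, `G_ACY` as hypotheses). Proof: by `G_ADG` all
four triangles are degenerate: 81 combinations; each is contradictory (`omega`) or a line order (12 of them) or a cycle (3 of
them). Move a line order to `0,1,2,3` by a permutation (`G_APM`) and use `G_ALN`, a cycle by `G_ACY`. (A convenient
intermediate statement: there is `σ` such that `v ∘ pe σ` satisfies the equations of `G_ALN` or those of `G_ACY`.) -/
def G_AAL : Prop := ∀ (F k : Type) [Field F] [LinearOrder F] [IsStrictOrderedRing F] [Field k]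
  [Algebra F k] (n : Fin 4 → F) (lam : F) (v : Fin 6 → ℤ) (M : ℤ) (ξ : Fin 6 → k),
    NA n lam v M ξ → (∀ e, 0 < v e) → False

/-- **FN-ACL** (type `A₃`, conclusion; take `G_APM`, `G_AB3`, `G_AB2`, `G_AAL` as hypotheses; `goalAB1` is proved in Tools).
Proof: `v` is a pseudometric (`NA.tri`). All `v e = 0`: `NA.sm` gives `M ∑ d = 0`, contradiction. All `v e > 0`: `G_AAL`.
Otherwise some `v e = 0`; move this edge to `01` by a permutation (`G_APM`). Then `v 3 = v 1`, `v 4 = v 2`. If
`v 1, v 2, v 5 > 0`: `G_AB2`. If `v 1 = 0`, then `v 5 = v 2` and `v 2 > 0`: `goalAB1`. If `v 2 = 0`: the same after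
exchanging the blocks `2, 3`. If `v 1, v 2 > 0`, `v 5 = 0`: then `v 2 = v 1`: `G_AB3`. -/
def G_ACL : Prop := ∀ (F k : Type) [Field F] [LinearOrder F] [IsStrictOrderedRing F] [Field k]
  [Algebra F k] (n : Fin 4 → F) (lam : F) (v : Fin 6 → ℤ) (M : ℤ) (ξ : Fin 6 → k),
    NA n lam v M ξ → False

/-- **FN-AFN** (type `A₃`: finiteness over any ordered field; take `G_PLC`, `G_NRM`, `G_ACL` as hypotheses). -/
def G_AFN : Prop := ∀ (F : Type) [Field F] [LinearOrder F] [IsStrictOrderedRing F]
  (n : Fin 4 → F) (lam : F), (∀ i, 0 < n i) → lam ≠ 0 → (Sols mA (cA n) (dA n) lam).Finite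

end Pool.Agent.Helper61.FN
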