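import Pool.Agent.Helper61.FN.GoalsC
import Pool.Agent.Helper61.FN.Tools
import Pool.Agent.Helper46.FN.C0A

/-!
# Project FN (MP_06d934_gt), packet FN-C0I
-/

set_option autoImplicit false

namespace Pool.Agent.Helper61.FN

open Finset

section C0I

variable {F k : Type} [Field F] [LinearOrder F] [IsStrictOrderedRing F] [Field k] [Algebra F k]
  {p q mu ep lam : F} {v : Fin 6 → ℤ} {M : ℤ} {ξ : Fin 6 → k}

omit [IsStrictOrderedRing F] in
theorem two (h : NC p q mu ep lam v M ξ) (w : Fin 6 → F) (g : ℤ) (hg : 0 ≤ g)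
    (h12 : M + gr (mC 12) v = g) (h14 : M + gr (mC 14) v = g)
    (hj : ∀ j, j ≠ 12 → j ≠ 14 → pr (mC j) w ≠ 0 → M + gr (mC j) v < g) :
    algebraMap F k (pr (mC 12) w) * (algebraMap F k (cC p q mu ep 12) * mon ξ (mC 12)) +
      algebraMap F k (pr (mC 14) w) * (algebraMap F k (cC p q mu ep 14) * mon ξ (mC 14)) =
      if g = 0 then algebraMap F k (-lam * ∑ e, dC p q mu ep e * w e) else 0 := by
  have h1 := h.nrm.ld w g hg fun j hj' ↦ by
    by_cases a : j = 12
    · rw [a, h12]
    · by_cases b : j = 14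
      · rw [b, h14]
      · exact (hj j a b (right_ne_zero_of_mul hj')).le
  rw [Fintype.sum_eq_add 12 14 (by decide) ?_, if_pos h12, if_pos h14] at h1
  · exact h1
  · rintro j ⟨a, b⟩
    split_ifs with h2
    · by_cases h3 : pr (mC j) w = 0
      · rw [h3, map_zero, zero_mul]
      · have := hj j a b h3
        omega
    · rfl

theorem mon12 (x : Fin 6 → k) : mon x (mC 12) = x 2 * (x 4 ^ 2)⁻¹ := by
  simp [mon, Fin.prod_univ_succ, mC]

theorem mon14 (x : Fin 6 → k) : mon x (mC 14) = (x 0)⁻¹ * ((x 1)⁻¹ * x 2) := by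
  simp [mon, Fin.prod_univ_succ, mC]

theorem mon6 (x : Fin 6 → k) : mon x (mC 6) = x 0 * ((x 4)⁻¹ * (x 5)⁻¹) := by
  simp [mon, Fin.prod_univ_succ, mC]

theorem mon10 (x : Fin 6 → k) : mon x (mC 10) = (x 1)⁻¹ * (x 4 * (x 5)⁻¹) := by
  simp [mon, Fin.prod_univ_succ, mC]

end C0I

theorem goalC0I : G_C0I := by
  intro F k _ _ _ _ _ p q mu ep lam v M ξ h hp h3 h2 h0 h4
  obtain ⟨p1, q1, mu0, ep2, ph0, ch0⟩ := h.par
  have pp : 0 < p := lt_of_lt_of_le one_pos p1
  have qq : 0 < q := lt_of_lt_of_le one_pos q1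
  have K0 : 0 < 2 * p + 2 * q + mu + 2 * ep := by linarith
  have x1 := mul_pos pp qq
  have x2 := mul_pos pp ph0
  have x3 := mul_pos qq ch0
  have x4 := mul_pos pp mu0
  have x5 := mul_pos qq mu0
  have p0' := hp 0
  have p1' := hp 1
  have p2' := hp 2
  have p3' := hp 3
  have p4' := hp 4
  have p5' := hp 5
  obtain ⟨-, -, -, -, -, ⟨-, a2, a3⟩, -⟩ := h.tri
  obtain ⟨T, t0, t1, te⟩ : ∃ T : Fin 20 → k, (∀ j, gr (mC j) v ≠ 0 → T j = 0) ∧
      (∀ j, gr (mC j) v = 0 → T j = algebraMap F k (cC p q mu ep j) * mon ξ (mC j)) ∧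
      ∀ e, ∑ j, (mC j e : k) * T j = 0 :=
    ⟨fun j ↦ if gr (mC j) v = 0 then algebraMap F k (cC p q mu ep j) * mon ξ (mC j) else 0,
      fun j hj ↦ if_neg hj, fun j hj ↦ if_pos hj, fun e ↦ h.nrm.ld0 e⟩
  obtain ⟨⟨-, -, e2⟩, -, e4, -⟩ := Pool.Agent.Helper46.FN.eqs te
  obtain ⟨G0, G1, G2, G3, G4, G12, G13⟩ := Pool.Agent.Helper46.FN.grs (v := v)
  obtain ⟨⟨G6, G7, G8⟩, ⟨G9, G10, G11⟩, ⟨G14, G15, G16⟩, G17, G18, G19⟩ :=
    Pool.Agent.Helper46.FN.grt (v := v)
  have hc : 2 * v 5 < v 2 := by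
    rcases lt_or_ge (2 * v 5) (v 2) with hc | hc
    · exact hc
    · exfalso
      have hc' : v 2 = 2 * v 5 := by omega
      rw [t0 2 (by omega), t0 12 (by omega), t0 14 (by omega), t0 16 (by omega),
        t1 15 (by omega)] at e2
      exact mul_ne_zero (am_ne (Pool.Agent.Helper46.FN.cC_ne h.par 15)) (mon_ne h.nrm.ne (mC 15))
        (by linear_combination -e2)
  rcases lt_trichotomy (v 2) (2 * v 5 + v 1) with hlt | heq | hgt
  · -- the monomial 15 dominates
    have hM : M + gr (mC 15) v = 0 := by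
      refine h.nrm.dm0 (Pi.single 2 1) ?_ 15 ?_ fun j hji hj ↦ ?_
      · simp [Fin.sum_univ_succ, dC]
        exact ⟨pp.ne', ph0.ne'⟩
      · rw [pr_single]
        simp [mC, cC]
        exact ⟨⟨pp.ne', qq.ne'⟩, ph0.ne'⟩
      · rw [gr6, gr6]
        rw [pr_single] at hj
        fin_cases j <;> simp [mC] at hj hji ⊢ <;> omega
    rw [G15] at hM
    refine h.nrm.neg ![1, 1, 0, 0, 1, 0] ?_ fun j hj ↦ ?_
    · have h6 : (0 : F) < ∑ e, dC p q mu ep e * (![1, 1, 0, 0, 1, 0] : Fin 6 → F) e := by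
        simp [Fin.sum_univ_succ, dC]
        nlinarith
      exact h6.ne'
    · rw [gr6]
      rw [pr6] at hj
      fin_cases j <;> simp [mC] at hj ⊢ <;> first | omega | (exfalso; exact hj.2 (by norm_num))
  · -- `M = v 5`, the sum
    have hM : M + gr (mC 5) v = 0 := by
      refine h.nrm.dm0 ![2, 0, 2, 2, 1, 1] ?_ 5 ?_ fun j hji hj ↦ ?_
      · have h6 : (0 : F) < ∑ e, dC p q mu ep e * (![2, 0, 2, 2, 1, 1] : Fin 6 → F) e := by
          simp [Fin.sum_univ_succ, dC]
          nlinarith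
        exact h6.ne'
      · rw [pr6]
        simp [mC, cC]
        exact ⟨⟨qq.ne', mu0.ne'⟩, K0.ne'⟩
      · rw [gr6, gr6]
        rw [pr6] at hj
        fin_cases j <;> simp [mC] at hj hji ⊢ <;>
          first | omega | (exfalso; exact hj.2 (by norm_num))
    have hM5 : v 5 = M := by
      rw [gr6] at hM
      simp [mC] at hM
      omega
    have hs := h.sm
    have hb : (0 : F) < v 1 := by exact_mod_cast p1'
    have hM0 : (0 : F) < M := by exact_mod_cast h.nrm.M_pos
    rw [heq, h0, h4, h3, hM5] at hs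
    push_cast at hs
    have g1 := mul_pos x1 hb
    have g2 := mul_pos x2 (add_pos hM0 hb)
    have g3 := mul_pos x3 hM0
    have g4 := mul_pos x4 hb
    nlinarith
  · -- the monomials 12, 14
    have n0 := h.nrm.ne 0
    have n1 := h.nrm.ne 1
    have n4 := h.nrm.ne 4
    have n5 := h.nrm.ne 5
    have hX : ξ 0 * ξ 1 = ξ 4 ^ 2 := by
      rw [t0 4 (by omega), t0 7 (by omega), t0 8 (by omega), t0 9 (by omega), t0 11 (by omega),
        t0 12 (by omega), t1 6 (by omega), t1 10 (by omega)] at e4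
      have h6 : mon ξ (mC 6) = mon ξ (mC 10) := by
        refine mul_left_cancel₀ (am_ne (k := k) (Pool.Agent.Helper46.FN.cC_ne h.par 6)) ?_
        have h7 : cC p q mu ep 10 = cC p q mu ep 6 := rfl
        rw [h7] at e4
        linear_combination -e4
      rw [mon6, mon10] at h6
      field_simp at h6
      linear_combination h6
    have hm : mon ξ (mC 14) = mon ξ (mC 12) := by
      rw [mon12, mon14, ← hX, mul_inv]
      ring
    have hne : mon ξ (mC 12) ≠ 0 := mon_ne h.nrm.ne _
    have c12 : cC p q mu ep 12 = -(p * (p + ep) * mu) / 2 := rfl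
    have c14 : cC p q mu ep 14 = -(p * q * (p + ep)) := rfl
    have hw : ∀ j : Fin 20, j ≠ 12 → j ≠ 14 → pr (mC j) (Pi.single 2 (1 : F)) ≠ 0 →
        M + gr (mC j) v < M + gr (mC 12) v := fun j a b hj ↦ by
      rw [gr6, gr6]
      rw [pr_single] at hj
      fin_cases j <;> simp [mC] at hj a b ⊢ <;> omega
    have hsd : ∑ e, dC p q mu ep e * (Pi.single 2 1 : Fin 6 → F) e = p * (p + ep) := by
      simp [Fin.sum_univ_succ, dC]
    rcases lt_trichotomy (M + gr (mC 12) v) 0 with hn | hz | hpo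
    · refine h.nrm.neg (Pi.single 2 1) (by rw [hsd]; exact x2.ne') fun j hj ↦ ?_
      by_cases a : j = 12
      · rw [a]
        exact hn
      · by_cases b : j = 14
        · rw [b, G14]
          omega
        · exact (hw j a b (right_ne_zero_of_mul hj)).trans hn
    · have r1 := two h (Pi.single 2 1) (M + gr (mC 12) v) hz.ge rfl (by omega) hw
      have r2 := two h ![1, 1, 0, 0, 1, 0] (M + gr (mC 12) v) hz.ge rfl (by omega)
        fun j a b hj ↦ by
          rw [hz, gr6]
          rw [G12] at hz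
          rw [pr6] at hj
          fin_cases j <;> simp [mC] at hj a b ⊢ <;>
            first | omega | (exfalso; exact hj (by norm_num))
      rw [if_pos hz, hm, c12, c14] at r1 r2
      rw [hsd, pr_single, pr_single] at r1
      have hsd2 : ∑ e, dC p q mu ep e * (![1, 1, 0, 0, 1, 0] : Fin 6 → F) e =
          4 * p * q + 2 * p * mu := by
        simp [Fin.sum_univ_succ, dC]
        ring
      have w12 : pr (mC 12) (![1, 1, 0, 0, 1, 0] : Fin 6 → F) = -2 := by
        rw [pr6]
        simp [mC]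
      have w14 : pr (mC 14) (![1, 1, 0, 0, 1, 0] : Fin 6 → F) = -2 := by
        rw [pr6]
        simp [mC]
        norm_num
      rw [hsd2, w12, w14] at r2
      have m12 : (mC 12 2 : ℤ) = 1 := rfl
      have m14 : (mC 14 2 : ℤ) = 1 := rfl
      rw [m12, m14] at r1
      have r3 : algebraMap F k (-lam * (4 * p * q + 2 * p * mu) - 2 * (lam * (p * (p + ep)))) =
          0 := by
        rw [map_sub, ← r2]
        have r4 : algebraMap F k (2 * (lam * (p * (p + ep)))) =
            algebraMap F k (-2) * algebraMap F k (-lam * (p * (p + ep))) := by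
          rw [← map_mul]
          congr 1
          ring
        rw [r4, ← r1, Int.cast_one, map_one]
        ring
      rw [map_eq_zero] at r3
      have r5 : lam * (2 * (p * (p + ep)) + 4 * (p * q) + 2 * (p * mu)) = 0 := by
        linear_combination -r3
      rcases mul_eq_zero.1 r5 with r6 | r6
      · exact h.nrm.lam_ne r6
      · nlinarith
    · have r1 := two h (Pi.single 2 1) (M + gr (mC 12) v) hpo.le rfl (by omega) hw
      rw [if_neg hpo.ne', hm, c12, c14, pr_single, pr_single] at r1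
      have m12 : (mC 12 2 : ℤ) = 1 := rfl
      have m14 : (mC 14 2 : ℤ) = 1 := rfl
      rw [m12, m14] at r1
      have r3 : algebraMap F k (-(p * (p + ep) * mu) / 2 - p * q * (p + ep)) * mon ξ (mC 12) =
          0 := by
        rw [← r1, Int.cast_one, map_one, sub_eq_add_neg, map_add]
        ring
      rcases mul_eq_zero.1 r3 with r6 | r6
      · rw [map_eq_zero] at r6
        have g1 := mul_pos x2 mu0
        have g2 := mul_pos x2 qq
        nlinarith
      · exact hne r6

end Pool.Agent.Helper61.FN
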