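import Mathlib

/-!
# Project FN (MP_06d934_gt): finiteness of invariant Einstein metrics. Definitions.

Paper: team-store FN_paper.md.
-/

set_option autoImplicit false

namespace Pool.Agent.Helper61.FN

open Finset WithZero

/-- The pairing `⟨m, w⟩` of an exponent with a weight. -/
def pr {E F : Type} [Fintype E] [Ring F] (m : E → ℤ) (w : E → F) : F := ∑ e, (m e : F) * w e

/-- The pairing `⟨m, u⟩` of an exponent with integers (the growth of the monomial). -/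
def gr {E : Type} [Fintype E] (m u : E → ℤ) : ℤ := ∑ e, m e * u e

/-- The Laurent monomial `x^m`. -/
def mon {E k : Type} [Fintype E] [Field k] (x : E → k) (m : E → ℤ) : k := ∏ e, x e ^ m e

/-- The solutions (with nonzero coordinates) of the system `∑_j c_j m_j(e) x^{m_j} = -lam d_e`. -/
def Sols {E J F : Type} [Fintype E] [Fintype J] [Field F] (m : J → E → ℤ) (c : J → F) (d : E → F)
    (lam : F) : Set (E → F) :=
  {x | (∀ e, x e ≠ 0) ∧ ∀ e, ∑ j, c j * (m j e : F) * mon x (m j) = -lam * d e}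

/-- The equations for leading coefficients: if all monomials with `c_j ⟨m_j, w⟩ ≠ 0` have growth
`b + ⟨m_j, v⟩ ≤ g`, then the leading coefficients satisfy the identity of the weight `w`. -/
def Led {E J F k : Type} [Fintype E] [Fintype J] [Field F] [Field k] [Algebra F k]
    (m : J → E → ℤ) (c : J → F) (d : E → F) (lam : F) (v : E → ℤ) (b : ℤ) (ξ : E → k) : Prop :=
  ∀ (w : E → F) (g : ℤ), 0 ≤ g → (∀ j, c j * pr (m j) w ≠ 0 → b + gr (m j) v ≤ g) →
    ∑ j, (if b + gr (m j) v = g then algebraMap F k (c j * pr (m j) w) * mon ξ (m j) else 0) =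
      if g = 0 then algebraMap F k (-lam * ∑ e, d e * w e) else 0

/-- Growth exponents `u` and leading coefficients `ξ` at a place of the solution set. -/
structure Plc {E J F k : Type} [Fintype E] [Fintype J] [Field F] [Field k] [Algebra F k]
    (m : J → E → ℤ) (c : J → F) (d : E → F) (lam : F) (u : E → ℤ) (ξ : E → k) : Prop where
  ne : ∀ e, ξ e ≠ 0
  u_ne : ∃ e, u e ≠ 0
  sum : ∑ e, d e * (u e : F) = 0
  lead : Led m c d lam u 0 ξ

/-- The normalised form: `v = u + M`, `M` the maximal growth. -/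
structure Nrm {E J F k : Type} [Fintype E] [Fintype J] [Field F] [Field k] [Algebra F k]
    (m : J → E → ℤ) (c : J → F) (d : E → F) (lam : F) (v : E → ℤ) (M : ℤ) (ξ : E → k) :
    Prop where
  ne : ∀ e, ξ e ≠ 0
  lam_ne : lam ≠ 0
  M_pos : 0 < M
  le : ∀ j, gr (m j) v ≤ 0
  ex : ∃ j, gr (m j) v = 0
  sum : ∑ e, d e * (v e : F) = M * ∑ e, d e
  lead : Led m c d lam v M ξ

/-! ### Type `A₃` -/

/-- Exponents of the monomials of type `A₃`. Coordinates: the edges `01, 02, 03, 12, 13, 23`.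
Monomials: `0..5` are `1/x_e`; then the triangles `012, 013, 023, 123`, three each (long edge first
`01, 02, 12`; `01, 03, 13`; `02, 03, 23`; `12, 13, 23`). -/
def mA : Fin 18 → Fin 6 → ℤ :=
  ![![-1, 0, 0, 0, 0, 0], ![0, -1, 0, 0, 0, 0], ![0, 0, -1, 0, 0, 0],
    ![0, 0, 0, -1, 0, 0], ![0, 0, 0, 0, -1, 0], ![0, 0, 0, 0, 0, -1],
    ![1, -1, 0, -1, 0, 0], ![-1, 1, 0, -1, 0, 0], ![-1, -1, 0, 1, 0, 0],
    ![1, 0, -1, 0, -1, 0], ![-1, 0, 1, 0, -1, 0], ![-1, 0, -1, 0, 1, 0],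
    ![0, 1, -1, 0, 0, -1], ![0, -1, 1, 0, 0, -1], ![0, -1, -1, 0, 0, 1],
    ![0, 0, 0, 1, -1, -1], ![0, 0, 0, -1, 1, -1], ![0, 0, 0, -1, -1, 1]]

/-- Coefficients of the monomials of type `A₃`. -/
def cA {F : Type} [Field F] (n : Fin 4 → F) : Fin 18 → F :=
  ![n 0 * n 1 * (n 0 + n 1 + n 2 + n 3), n 0 * n 2 * (n 0 + n 1 + n 2 + n 3),
    n 0 * n 3 * (n 0 + n 1 + n 2 + n 3), n 1 * n 2 * (n 0 + n 1 + n 2 + n 3),
    n 1 * n 3 * (n 0 + n 1 + n 2 + n 3), n 2 * n 3 * (n 0 + n 1 + n 2 + n 3),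
    -(n 0 * n 1 * n 2) / 2, -(n 0 * n 1 * n 2) / 2, -(n 0 * n 1 * n 2) / 2,
    -(n 0 * n 1 * n 3) / 2, -(n 0 * n 1 * n 3) / 2, -(n 0 * n 1 * n 3) / 2,
    -(n 0 * n 2 * n 3) / 2, -(n 0 * n 2 * n 3) / 2, -(n 0 * n 2 * n 3) / 2,
    -(n 1 * n 2 * n 3) / 2, -(n 1 * n 2 * n 3) / 2, -(n 1 * n 2 * n 3) / 2]

/-- Dimensions (halved) of type `A₃`. -/
def dA {F : Type} [Field F] (n : Fin 4 → F) : Fin 6 → F :=
  ![n 0 * n 1, n 0 * n 2, n 0 * n 3, n 1 * n 2, n 1 * n 3, n 2 * n 3]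

/-- The situation of section 1 of the paper. -/
structure NA {F k : Type} [Field F] [LinearOrder F] [Field k] [Algebra F k] (n : Fin 4 → F)
    (lam : F) (v : Fin 6 → ℤ) (M : ℤ) (ξ : Fin 6 → k) : Prop where
  pos : ∀ i, 0 < n i
  nrm : Nrm mA (cA n) (dA n) lam v M ξ

/-- The number of the edge `ij`. -/
def ed : Fin 4 → Fin 4 → Fin 6 :=
  ![![0, 0, 1, 2], ![0, 0, 3, 4], ![1, 3, 0, 5], ![2, 4, 5, 0]]

/-- The end points of an edge. -/
def en : Fin 6 → Fin 4 × Fin 4 := ![(0, 1), (0, 2), (0, 3), (1, 2), (1, 3), (2, 3)]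

/-- The action of a permutation of the blocks on the edges. -/
def pe (σ : Equiv.Perm (Fin 4)) (e : Fin 6) : Fin 6 := ed (σ (en e).1) (σ (en e).2)

/-! ### T-roots of type `BC₂` -/

/-- Exponents of the monomials of type `BC₂`. Coordinates `x₋, x₊, z₁, z₂, y₁, y₂` (the T-roots
`δ₁-δ₂, δ₁+δ₂, 2δ₁, 2δ₂, δ₁, δ₂`). Monomials: `0..5` are `1/x_e`; `6,7,8`: triangle `x₋, y₁, y₂` (long edge
first, in this order); `9,10,11`: `x₊, y₁, y₂`; `12`: `z₁/y₁²`; `13`: `z₂/y₂²`; `14,15,16`: triangle `z₁, x₋, x₊`;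
`17,18,19`: `z₂, x₋, x₊`. -/
def mC : Fin 20 → Fin 6 → ℤ :=
  ![![-1, 0, 0, 0, 0, 0], ![0, -1, 0, 0, 0, 0], ![0, 0, -1, 0, 0, 0],
    ![0, 0, 0, -1, 0, 0], ![0, 0, 0, 0, -1, 0], ![0, 0, 0, 0, 0, -1],
    ![1, 0, 0, 0, -1, -1], ![-1, 0, 0, 0, 1, -1], ![-1, 0, 0, 0, -1, 1],
    ![0, 1, 0, 0, -1, -1], ![0, -1, 0, 0, 1, -1], ![0, -1, 0, 0, -1, 1],
    ![0, 0, 1, 0, -2, 0], ![0, 0, 0, 1, 0, -2],
    ![-1, -1, 1, 0, 0, 0], ![1, -1, -1, 0, 0, 0], ![-1, 1, -1, 0, 0, 0],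
    ![-1, -1, 0, 1, 0, 0], ![1, -1, 0, -1, 0, 0], ![-1, 1, 0, -1, 0, 0]]

/-- Coefficients of the monomials of type `BC₂` (`ep = -1` for `SO`, `ep = 1` for `Sp`; `mu = m` resp.
`2r`). -/
def cC {F : Type} [Field F] (p q mu ep : F) : Fin 20 → F :=
  ![2 * p * q * (2 * p + 2 * q + mu + 2 * ep), 2 * p * q * (2 * p + 2 * q + mu + 2 * ep),
    2 * p * (p + ep) * (p + q + ep), 2 * q * (q + ep) * (p + q + ep),
    2 * p * mu * (2 * p + 2 * q + mu + 2 * ep), 2 * q * mu * (2 * p + 2 * q + mu + 2 * ep),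
    -(p * q * mu), -(p * q * mu), -(p * q * mu), -(p * q * mu), -(p * q * mu), -(p * q * mu),
    -(p * (p + ep) * mu) / 2, -(q * (q + ep) * mu) / 2,
    -(p * q * (p + ep)), -(p * q * (p + ep)), -(p * q * (p + ep)),
    -(p * q * (q + ep)), -(p * q * (q + ep)), -(p * q * (q + ep))]

/-- Dimensions of type `BC₂`. -/
def dC {F : Type} [Field F] (p q mu ep : F) : Fin 6 → F :=
  ![2 * p * q, 2 * p * q, p * (p + ep), q * (q + ep), 2 * p * mu, 2 * q * mu]

/-- The conditions on the parameters. -/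
structure ParC {F : Type} [Field F] [LinearOrder F] (p q mu ep : F) : Prop where
  p1 : 1 ≤ p
  q1 : 1 ≤ q
  mu0 : 0 < mu
  ep2 : ep * ep = 1
  ph0 : 0 < p + ep
  ch0 : 0 < q + ep

/-- The situation of section 2 of the paper. -/
structure NC {F k : Type} [Field F] [LinearOrder F] [Field k] [Algebra F k] (p q mu ep lam : F)
    (v : Fin 6 → ℤ) (M : ℤ) (ξ : Fin 6 → k) : Prop where
  par : ParC p q mu ep
  nrm : Nrm mC (cC p q mu ep) (dC p q mu ep) lam v M ξ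

/-- The symmetry `x₋ ↔ x₊`. -/
def sg : Fin 6 → Fin 6 := ![1, 0, 2, 3, 4, 5]

/-- The symmetry `1 ↔ 2`. -/
def ta : Fin 6 → Fin 6 := ![0, 1, 3, 2, 5, 4]

/-! ### The Dedekind domain and its valuation -/

/-- `R` is a Dedekind domain with fraction field `K`, integral and finitely generated over `F[t]`, and `t` is not a
unit of `R`. -/
structure Ded (F K : Type) [Field F] [Field K] [Algebra F K] (t : K) (R : Subalgebra F K) :
    Prop where
  ded : IsDedekindDomain R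
  frac : IsFractionRing R K
  mem : t ∈ R
  int : ∀ r ∈ R, IsIntegral (Algebra.adjoin F {t}) r
  fin : ∃ s : Finset K, ∀ r ∈ R, r ∈ Submodule.span (Algebra.adjoin F {t}) (s : Set K)
  nu : t⁻¹ ∉ R

/-- A discrete valuation of `K` belonging to a prime of `R` which contains `t`. -/
structure DVal (F K : Type) [Field F] [Field K] [Algebra F K] (t : K) (R : Subalgebra F K)
    (v : Valuation K (WithZero (Multiplicative ℤ))) : Prop where
  int : ∀ r ∈ R, v r ≤ 1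
  vt : v t < 1
  triv : ∀ c : F, c ≠ 0 → v (algebraMap F K c) = 1
  uni : ∃ π : K, v π = exp (-1 : ℤ)
  loc : ∀ y, v y ≤ 1 → ∃ r ∈ R, ∃ s ∈ R, v s = 1 ∧ y * s = r
  res : ∀ y, v y ≤ 1 → ∃ h : Polynomial F, v (Polynomial.aeval y h) < 1 ∧
    v (Polynomial.aeval y (Polynomial.derivative h)) = 1

/-- A discrete valuation with a derivation which is logarithmic for it. -/
structure LogD (F K : Type) [Field F] [Field K] [Algebra F K] (t : K)
    (v : Valuation K (WithZero (Multiplicative ℤ))) (D : Derivation F K K) : Prop where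
  vt : v t < 1
  triv : ∀ c : F, c ≠ 0 → v (algebraMap F K c) = 1
  uni : ∃ π : K, v π = exp (-1 : ℤ)
  dt : D t = t
  dv : ∀ y, v y ≤ 1 → v (D y) < 1

end Pool.Agent.Helper61.FN
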