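import Pool.Agent.Helper61.FN.MainA

/-! Project FN: finiteness as a set, type A. -/

set_option autoImplicit false

namespace Pool.Agent.Helper61.FN

open Pool.Agent.Helper83.EIN

theorem fin_A (n : Fin 4 → ℕ) (hn : ∀ i, 0 < n i) :
    {x : Fin 4 → Fin 4 → ℝ | IsMetric x ∧ Pool.Agent.Helper58.EF.Mat.Einstein n (1 / 2) x}.Finite := by
  obtain ⟨C, hC⟩ := g_UA
  have h1 : (Sols mA (cA fun i ↦ (n i : ℝ)) (dA fun i ↦ (n i : ℝ)) (∑ i, (n i : ℝ))).Finite :=
    Set.finite_of_encard_le_coe (hC n hn)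
  refine Set.Finite.of_finite_image (f := Pool.Agent.Helper32.FN.co) (h1.subset ?_) ?_
  · rintro _ ⟨x, hx, rfl⟩
    exact Pool.Agent.Helper44.FN.goalLKA n hn x hx.1
      ((Pool.Agent.Helper58.EF.Mat.einstein_iff hn hx.1 _).1 hx.2)
  · intro x hx y hy h
    exact Pool.Agent.Helper32.FN.co_inj hx.1 hy.1 h

end Pool.Agent.Helper61.FN
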