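import Pool.Agent.Helper40.FN.FC

/-! Project FN: finiteness as a set, types B, C, D. -/

set_option autoImplicit false

namespace Pool.Agent.Helper61.FN

open Pool.Agent.Helper58.DM (Frame Sizes kk Full Einstein FD FC)

theorem fin_C {I : Type} [Fintype I] [DecidableEq I] (F : Frame I) (p q m : ℕ)
    (hUC : G_UC) (hLKC : G_LKC) (hs : Sizes F p q m) (hk : 0 < kk F) (hF : Full F) :
    {w : Fin 6 → ℝ | (∀ c, 0 < w c) ∧ Einstein F (1 / 2) w}.Finite := by
  obtain ⟨C, hC⟩ := hUC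
  have hP := Pool.Agent.Helper40.FN.parC_of_sizes F p q m hs
  have h1 : (Sols mC (cC (p : ℝ) q m (-F.η)) (dC (p : ℝ) q m (-F.η))
      (2 * p + 2 * q + m + 2 * (-F.η))).Finite :=
    Set.finite_of_encard_le_coe (hC p q m (-F.η) hP)
  refine h1.subset ?_
  rintro w ⟨hw, he⟩
  exact hLKC p q m (-F.η) hP w hw
    ((Pool.Agent.Helper58.DM.m_ein I F p q m w (1 / 2) hs hk hF hw).1 he)

end Pool.Agent.Helper61.FN
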