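import Pool.Agent.Helper61.FN.GoalsC
import Pool.Agent.Helper58.DM.Main
import Pool.Agent.Helper58.DG.Main
import Pool.Agent.Helper58.EF.MatInv

/-!
# Project FN (MP_06d934_gt): goals, third part (hyperreals, links to the Ricci components, conclusion)
-/

set_option autoImplicit false

namespace Pool.Agent.Helper61.FN

open Finset

/-- **FN-ULT** (transfer to the hyperreals). Proof: for every `i` choose an injective `z_i : Fin i → Sols …` (a set with
`encard ≥ i`; equivalently a finite subset with `i` elements) and put `Z_j` = germ of `i ↦ z_i(j)` for `i > j` (any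
value, e.g. 1, for `i ≤ j`). For `i > j` all coordinates are nonzero and the equations hold, so (eventually true, the
hyperfilter contains the cofinite sets) the coordinates of `Z_j` are nonzero and the equations hold for the germs: sums,
products, integer powers and inverses of germs are the germs of those. `Z_j ≠ Z_l` for `j ≠ l`: for large `i` the points
`z_i(j) ≠ z_i(l)` differ in some coordinate `e`, `E` is finite, so for some `e` the set of the `i` with a difference in `e` is in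
the hyperfilter (ultrafilter; `Ultrafilter.eventually_exists_iff` or a finite union). So `j ↦ Z_j` is injective on `ℕ`. -/
def G_ULT : Prop := ∀ (E J : Type) [Fintype E] [Fintype J] (m : J → E → ℤ) (c : ℕ → J → ℝ)
  (d : ℕ → E → ℝ) (lam : ℕ → ℝ), (∀ i : ℕ, (i : ℕ∞) ≤ (Sols m (c i) (d i) (lam i)).encard) →
    (Sols m (fun j ↦ Hyperreal.ofSeq fun i ↦ c i j) (fun e ↦ Hyperreal.ofSeq fun i ↦ d i e)
      (Hyperreal.ofSeq lam)).Infinite

/-- **FN-SQH** (square roots). Proof: germ of `Real.sqrt`. -/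
def G_SQH : Prop := SqF Hyperreal

/-- **FN-UA** (uniform bound, type `A₃`; take `G_ULT`, `G_AFN` as hypotheses). Proof: otherwise for every `i` there are
sizes `n_i` with `encard > i`; `G_ULT` gives infinitely many solutions over the hyperreals for
`cA [n]`, `dA [n]`, `[∑ n]` (`[n] j` = germ of `i ↦ n_i j`, positive), which contradicts `G_AFN`. -/
def G_UA : Prop := ∃ C : ℕ, ∀ n : Fin 4 → ℕ, (∀ i, 0 < n i) →
  (Sols mA (cA fun i ↦ (n i : ℝ)) (dA fun i ↦ (n i : ℝ)) (∑ i, (n i : ℝ))).encard ≤ C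

/-- **FN-UC** (uniform bound, type `BC₂`; take `G_ULT`, `G_SQH`, `G_CFN` as hypotheses). Proof: as `G_UA`; the `ep` of the
counterexamples is a germ with square 1. -/
def G_UC : Prop := ∃ C : ℕ, ∀ (p q m : ℕ) (ep : ℝ), ParC (p : ℝ) q m ep →
  (Sols mC (cC (p : ℝ) q m ep) (dC (p : ℝ) q m ep) (2 * p + 2 * q + m + 2 * ep)).encard ≤ C

/-- **FN-LKA** (link, type `A₃`). Proof: `∑ j, c_j m_j(e) x^{m_j} = - n_a n_b * 2N * ric n x a b` for the edge `e = ab`, `N = ∑ n`;
write out the four blocks and clear denominators (`field_simp`, `ring`), for each of the six edges. -/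
def G_LKA : Prop := ∀ (n : Fin 4 → ℕ), (∀ i, 0 < n i) → ∀ x : Fin 4 → Fin 4 → ℝ,
  Pool.Agent.Helper83.EIN.IsMetric x → Pool.Agent.Helper83.EIN.IsEinstein n (1 / 2) x →
    (fun e ↦ x (en e).1 (en e).2) ∈
      Sols mA (cA fun i ↦ (n i : ℝ)) (dA fun i ↦ (n i : ℝ)) (∑ i, (n i : ℝ))

/-- **FN-LKC** (link, type `BC₂`). Proof: `∑ j, c_j m_j(e) w^{m_j} = - dF e * 2 K0 * ric … w e`, `K0 = 2p+2q+m+2ep`, `dF = dC`; write out the
sums over `AF` (`ind` decides which triples occur) and clear denominators, for each of the six `e`. -/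
def G_LKC : Prop := ∀ (p q m : ℕ) (ep : ℝ), ParC (p : ℝ) q m ep → ∀ w : Fin 6 → ℝ,
  (∀ c, 0 < w c) →
  (∀ c, Pool.Agent.Helper58.DH.ric (Pool.Agent.Helper58.DH.dF ep p q m)
    (Pool.Agent.Helper58.DH.AF ep p q m) w c = 1 / 2) →
    w ∈ Sols mC (cC (p : ℝ) q m ep) (dC (p : ℝ) q m ep) (2 * p + 2 * q + m + 2 * ep)

/-- **FN-SCA** (the Einstein constant, type `A₃`). Proof: take the largest `x a b`; `r_ab = c`:
`2 r_ab x_ab = 1 + ∑_k n_k/(2N) (x_ab² - x_ak² - x_bk²)/(x_ak x_bk)` and each fraction is `≥ -1` (the square of the larger of `x_ak,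
x_bk` is `≤ x_ab²`), so `c > 0`. `ric n (t x) = ric n x / t`. (See also the file of the hand-in TwentyMetrics.) -/
def G_SCA : Prop := ∀ (n : Fin 4 → ℕ), (∀ i, 0 < n i) → ∀ (x : Fin 4 → Fin 4 → ℝ) (c : ℝ),
  Pool.Agent.Helper83.EIN.IsMetric x → Pool.Agent.Helper83.EIN.IsEinstein n c x →
    0 < c ∧ Pool.Agent.Helper83.EIN.IsMetric ((2 * c) • x) ∧
      Pool.Agent.Helper83.EIN.IsEinstein n (1 / 2) ((2 * c) • x)

/-- **FN-SCC** (the Einstein constant, type `BC₂`). Proof: take `k` with the largest `w k`;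
`4 d_k w_k r_k = 2 d_k + ∑ A_ijk (w_k² - w_i² - w_j²)/(w_i w_j) ≥ 2 d_k - ∑ A_ijk` and `∑_{ij} A_ijk ≤ d_k` (compute for the six `k`), so
`c > 0`. `ric` is homogeneous of degree `-1`. -/
def G_SCC : Prop := ∀ (p q m : ℕ) (ep : ℝ), ParC (p : ℝ) q m ep → ∀ (w : Fin 6 → ℝ) (c₀ : ℝ),
  (∀ c, 0 < w c) →
  (∀ c, Pool.Agent.Helper58.DH.ric (Pool.Agent.Helper58.DH.dF ep p q m)
    (Pool.Agent.Helper58.DH.AF ep p q m) w c = c₀) →
    0 < c₀ ∧ ∀ c, Pool.Agent.Helper58.DH.ric (Pool.Agent.Helper58.DH.dF ep p q m)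
      (Pool.Agent.Helper58.DH.AF ep p q m) ((2 * c₀) • w) c = 1 / 2

/-- The Einstein metrics (`M`: the metrics, `Ein c`: those with `Ric = c g`) are the positive multiples of at most `C` metrics
with `Ric = g/2`. -/
def Few {V : Type} [SMul ℝ V] (C : ℕ) (M : V → Prop) (Ein : ℝ → V → Prop) : Prop :=
  ∃ Y : Finset V, Y.card ≤ C ∧ (∀ y ∈ Y, M y ∧ Ein (1 / 2) y) ∧
    ∀ x c, M x → Ein c x → 0 < c ∧ ∃ y ∈ Y, ∃ t : ℝ, 0 < t ∧ x = t • y

/-- **FN-FA** (type `A₃` at the level of matrices; take `G_UA`, `G_LKA`, `G_SCA` as hypotheses). Proof: by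
`Pool.Agent.Helper58.EF.Mat.einstein_iff` the Einstein condition is `IsEinstein`; `x ↦ (x_e)` is injective on metrics
(symmetric, zero diagonal) and maps the solutions with `c = 1/2` into the set of `G_UA`, so they are a finite set `Y` with at
most `C` elements; `x = (2c)⁻¹ • ((2c) • x)`. -/
def G_FA : Prop := ∃ C : ℕ, ∀ n : Fin 4 → ℕ, (∀ i, 0 < n i) →
  Few C Pool.Agent.Helper83.EIN.IsMetric (Pool.Agent.Helper58.EF.Mat.Einstein n)

/-- **FN-FC** (types B, C, D at the level of matrices; take `G_UC`, `G_LKC`, `G_SCC` as hypotheses). Proof: by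
`Pool.Agent.Helper58.DM.m_ein` and `k_gw` the Einstein condition is `ric = c`, with `ep = -η`: `ep = -1` for `FD`, `ep = 1` for
`FC`; `ParC p q m ep` holds. -/
def G_FC : Prop := ∃ C : ℕ,
  (∀ p q m : ℕ, 2 ≤ p → 2 ≤ q → 1 ≤ m → m ≠ 2 →
    Few C (fun w : Fin 6 → ℝ ↦ ∀ c, 0 < w c)
      (Pool.Agent.Helper58.DM.Einstein (Pool.Agent.Helper58.DM.FD p q m))) ∧
  ∀ p q r : ℕ, 1 ≤ p → 1 ≤ q → 1 ≤ r →
    Few C (fun w : Fin 6 → ℝ ↦ ∀ c, 0 < w c)
      (Pool.Agent.Helper58.DM.Einstein (Pool.Agent.Helper58.DM.FC p q r))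

end Pool.Agent.Helper61.FN
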