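import Pool.Agent.Helper61.FN.MainA
import Pool.Agent.Helper61.FN.FinA
import Pool.Agent.Helper61.FN.FinC
import Pool.Agent.Helper8.FN.CSG
import Pool.Agent.Helper54.FN.CTA
import Pool.Agent.Helper95.FN.C5
import Pool.Agent.Helper56.FN.C6
import Pool.Agent.Helper35.FN.CR
import Pool.Agent.Helper35.FN.CST
import Pool.Agent.Helper35.FN.CFN
import Pool.Agent.Helper13.FN.C3
import Pool.Agent.Helper1.FN.C2
import Pool.Agent.Helper1.FN.SCC
import Pool.Agent.Helper34.FN.C1A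
import Pool.Agent.Helper63.FN.C1B
import Pool.Agent.Helper45.FN.C1C
import Pool.Agent.Helper78.FN.C4A
import Pool.Agent.Helper93.FN.C4B
import Pool.Agent.Helper71.FN.C0C
import Pool.Agent.Helper46.FN.C0A
import Pool.Agent.Helper77.FN.C0B
import Pool.Agent.Helper61.FN.C0I
import Pool.Agent.Helper49.FN.C0J
import Pool.Agent.Helper55.FN.C0
import Pool.Agent.Helper45.FN.CCL
import Pool.Agent.Helper62.FN.SQH
import Pool.Agent.Helper18.FN.UC
import Pool.Agent.Helper43.FN.LKC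
import Pool.Agent.Helper40.FN.FC

/-! Project FN: the finiteness for the spaces of types B, C, D. -/

set_option autoImplicit false

namespace Pool.Agent.Helper61.FN

theorem g_CSG : G_CSG := Pool.Agent.Helper8.FN.CSG.goalCSG
theorem g_CTA : G_CTA := Pool.Agent.Helper54.FN.goalCTA
theorem g_CR : G_CR := Pool.Agent.Helper35.FN.goalCR
theorem g_CST : G_CST := Pool.Agent.Helper35.FN.goalCST g_CR
theorem g_C3 : G_C3 := Pool.Agent.Helper13.FN.goalC3 g_CR g_CST g_CTA
theorem g_C2 : G_C2 := Pool.Agent.Helper1.FN.goalC2 g_CR g_CST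
theorem g_C0 : G_C0 :=
  Pool.Agent.Helper55.FN.goalC0 g_CSG g_CTA Pool.Agent.Helper71.FN.goalC0C
    Pool.Agent.Helper46.FN.goalC0A Pool.Agent.Helper77.FN.goalC0B goalC0I
    Pool.Agent.Helper49.FN.goalC0J
theorem g_CCL : G_CCL :=
  Pool.Agent.Helper45.FN.CCL.goalCCL g_CSG g_CTA Pool.Agent.Helper95.FN.goalC5
    Pool.Agent.Helper56.FN.C6.goalC6 g_C3 g_C2 Pool.Agent.Helper34.FN.goalC1A
    Pool.Agent.Helper63.FN.goalC1B Pool.Agent.Helper45.FN.C1C.goalC1C
    Pool.Agent.Helper78.FN.C4A.goalC4A Pool.Agent.Helper93.FN.C4B.goalC4B g_C0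
theorem g_CFN : G_CFN := Pool.Agent.Helper35.FN.goalCFN g_PLC g_NRM g_CCL
theorem g_UC : G_UC :=
  Pool.Agent.Helper18.FN.goalUC Pool.Agent.Helper64.FN.goalULT Pool.Agent.Helper62.FN.goalSQH g_CFN
theorem g_LKC : G_LKC := Pool.Agent.Helper43.FN.goalLKC
theorem g_FC : G_FC := Pool.Agent.Helper40.FN.goalFC g_UC g_LKC Pool.Agent.Helper1.FN.goalSCC

end Pool.Agent.Helper61.FN
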