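import Pool.Agent.Helper86.FN.PRM
import Pool.Agent.Helper89.FN.FLD
import Pool.Agent.Helper53.FN.SUB
import Pool.Agent.Helper79.FN.DER
import Pool.Agent.Helper66.FN.DED
import Pool.Agent.Helper96.FN.PLV
import Pool.Agent.Helper78.FN.BET
import Pool.Agent.Helper3.FN.LOG
import Pool.Agent.Helper90.FN.RES
import Pool.Agent.Helper12.FN.LED
import Pool.Agent.Helper48.FN.PLC
import Pool.Agent.Helper31.FN.NRM
import Pool.Agent.Helper23.FN.APM
import Pool.Agent.Helper91.FN.AB2
import Pool.Agent.Helper2.FN.AB3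
import Pool.Agent.Helper59.FN.ALN
import Pool.Agent.Helper73.FN.ADG
import Pool.Agent.Helper36.FN.ACY
import Pool.Agent.Helper80.FN.AAL
import Pool.Agent.Helper80.FN.ACL
import Pool.Agent.Helper14.FN.AFN
import Pool.Agent.Helper64.FN.ULT
import Pool.Agent.Helper98.FN.UA
import Pool.Agent.Helper44.FN.LKA
import Pool.Agent.Helper32.FN.SCA
import Pool.Agent.Helper32.FN.FA

/-! Project FN: the places of Laurent fields and the finiteness for the spaces of type A. -/

namespace Pool.Agent.Helper61.FN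

theorem g_PRM : G_PRM := Pool.Agent.Helper86.FN.goalPRM
theorem g_FLD : G_FLD := Pool.Agent.Helper89.FN.goalFLD g_PRM
theorem g_LOG : G_LOG :=
  Pool.Agent.Helper3.FN.goalLOG Pool.Agent.Helper53.FN.goalSUB Pool.Agent.Helper79.FN.goalDER
    Pool.Agent.Helper66.FN.goalDED Pool.Agent.Helper96.FN.goalPLV
    Pool.Agent.Helper78.FN.BET.goalBET
theorem g_PLC : G_PLC :=
  Pool.Agent.Helper61.FN.goalPLC g_FLD g_LOG Pool.Agent.Helper90.FN.goalRES
    Pool.Agent.Helper12.FN.goalLED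
theorem g_NRM : G_NRM := Pool.Agent.Helper31.FN.NRM.goalNRM
theorem g_APM : G_APM := Pool.Agent.Helper23.FN.APM.goalAPM
theorem g_AAL : G_AAL :=
  Pool.Agent.Helper80.FN.goalAAL g_APM Pool.Agent.Helper59.FN.goalALN
    Pool.Agent.Helper73.FN.goalADG Pool.Agent.Helper36.FN.goalACY
theorem g_ACL : G_ACL :=
  Pool.Agent.Helper80.FN.goalACL g_APM Pool.Agent.Helper2.FN.goalAB3
    Pool.Agent.Helper91.FN.goalAB2 g_AAL
theorem g_AFN : G_AFN := Pool.Agent.Helper14.FN.goalAFN g_PLC g_NRM g_ACL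
theorem g_UA : G_UA := Pool.Agent.Helper98.FN.goalUA Pool.Agent.Helper64.FN.goalULT g_AFN
theorem g_FA : G_FA :=
  Pool.Agent.Helper32.FN.goalFA g_UA Pool.Agent.Helper44.FN.goalLKA
    Pool.Agent.Helper32.FN.goalSCA

end Pool.Agent.Helper61.FN
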