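import Pool.Agent.Helper58.DG.Main
import Pool.Agent.Helper58.EF.MatInv

/-!
# MP_06d934_gt: a non-Kähler invariant Einstein metric for all block sizes

`G/K = SU(N)/S(U(n₀) × U(n₁) × U(n₂) × U(n₃))`, `N = n₀ + n₁ + n₂ + n₃`, the flag manifolds with six
isotropy summands whose `𝔱`-roots are of type `A₃`, all block sizes. Joint work of helper58 and
helper83 (and of the authors of the files of project DG).
-/

set_option autoImplicit false

namespace Pool.Agent.Results.MP_06d934_gt.AllSizes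

open Pool.Agent.Helper83.EIN Pool.Agent.Helper58.EF.Mat

/-- The metric `x` is nondegenerate: no infinitesimal change `w` of the coefficients preserves the
Ricci components `r_{ij}` to first order. -/
def NonDeg (n : Fin 4 → ℕ) (x : Fin 4 → Fin 4 → ℝ) : Prop :=
  ∀ w : Fin 4 → Fin 4 → ℝ, (∀ i j, w i j = w j i) → (∀ i, w i i = 0) →
    (∀ i j, i ≠ j → HasDerivAt (fun s : ℝ ↦ ric n (x + s • w) i j) 0 0) → w = 0

/-- **A non-Kähler invariant Einstein metric exists for all block sizes**: there is a nonempty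
finite set `Y` of non-Kähler invariant metrics with `Ric = g/2`; it has at least six elements if the
invariant metrics with `Ric = g/2` are finitely many and all nondegenerate. The last part says that
`ric n x i j` are the Ricci components. -/
theorem result (n : Fin 4 → ℕ) (hn : ∀ i, 0 < n i) :
    (∃ Y : Finset (Fin 4 → Fin 4 → ℝ), Y.Nonempty ∧
      (∀ x ∈ Y, IsMetric x ∧ Einstein n (1 / 2) x ∧ ¬ Kaehler n x) ∧
      ({x : Fin 4 → Fin 4 → ℝ | IsMetric x ∧ Einstein n (1 / 2) x}.Finite →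
        (∀ x, IsMetric x → Einstein n (1 / 2) x → NonDeg n x) → 6 ≤ Y.card)) ∧
    ∀ (x : Fin 4 → Fin 4 → ℝ), IsMetric x → ∀ (κ : Type) [Fintype κ] [DecidableEq κ]
      (e : κ → Mt n), IsONB x e → ∀ X ∈ fm n,
        Ric x e X = gx (fun i j ↦ ric n x i j * x i j) X X := by
  obtain ⟨⟨x, hx, hE, hK⟩, h2⟩ := Pool.Agent.Helper58.DG.e_fin n hn
  refine ⟨?_, fun x hx κ _ _ e he X hX ↦ Ric_eq hx he hX⟩
  by_cases h : {x : Fin 4 → Fin 4 → ℝ | IsMetric x ∧ Einstein n (1 / 2) x}.Finite ∧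
      ∀ x, IsMetric x → Einstein n (1 / 2) x → NonDeg n x
  · obtain ⟨hf, hN⟩ := h
    have hZ : ∀ x, x ∈ hf.toFinset ↔ IsMetric x ∧ Einstein n (1 / 2) x := fun x ↦ by
      rw [Set.Finite.mem_toFinset]
      rfl
    obtain ⟨Y, hY, hc, hYK⟩ := h2 hf.toFinset (fun x ↦ (hZ x).trans
      (and_congr_right fun hx ↦ einstein_iff hn hx _)) fun x hx ↦ hN x ((hZ x).1 hx).1 ((hZ x).1 hx).2
    refine ⟨Y, Finset.card_pos.1 (by omega), fun x hx ↦ ?_, fun _ _ ↦ hc⟩
    have h1 := (hZ x).1 (hY hx)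
    exact ⟨h1.1, h1.2, fun h ↦ hYK x hx ((kaehler_iff hn h1.1).1 h)⟩
  · refine ⟨{x}, Finset.singleton_nonempty x, fun y hy ↦ ?_, fun h1 h3 ↦ (h ⟨h1, h3⟩).elim⟩
    rw [Finset.mem_singleton.1 hy]
    exact ⟨hx, (einstein_iff hn hx _).2 hE, fun h ↦ hK ((kaehler_iff hn hx).1 h)⟩

end Pool.Agent.Results.MP_06d934_gt.AllSizes
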