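import Pool.Agent.Helper58.DM.Main

/-!
# MP_06d934_gt: a non-Kähler invariant Einstein metric for the families B, C, D

`SO(2p+2q+m)/(U(p) × U(q) × SO(m))` and `Sp(p+q+r)/(U(p) × U(q) × Sp(r))`: the flag manifolds of the
orthogonal and symplectic groups with six isotropy summands, all sizes. Joint work of helper58 and
of the authors of the files of the projects DG, DH and DM.
-/

set_option autoImplicit false

namespace Pool.Agent.Results.MP_06d934_gt.TypeBCD

open Pool.Agent.Helper58.DH Pool.Agent.Helper58.DM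

/-- There is a nonempty finite set `Y` of non-Kähler invariant metrics with `Ric = g/2`; it has at
least four elements if the invariant metrics with `Ric = g/2` are finitely many and all
nondegenerate. The last part says that `ric (dF ε p q m) (AF ε p q m) w c` are the Ricci
components. -/
def HasNonKaehlerEinstein {I : Type} [Fintype I] [DecidableEq I] (F : Frame I) (ε : ℝ)
    (p q m : ℕ) : Prop :=
  (∃ Y : Finset (Fin 6 → ℝ), Y.Nonempty ∧
    (∀ w ∈ Y, (∀ c, 0 < w c) ∧ Einstein F (1 / 2) w ∧ ¬ Kaehler F w) ∧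
    ({w : Fin 6 → ℝ | (∀ c, 0 < w c) ∧ Einstein F (1 / 2) w}.Finite →
      (∀ w : Fin 6 → ℝ, (∀ c, 0 < w c) → Einstein F (1 / 2) w →
        NonDegC (dF ε p q m) (AF ε p q m) w) → 4 ≤ Y.card)) ∧
  ∀ (w : Fin 6 → ℝ), (∀ c, 0 < w c) → ∀ (κ : Type) [Fintype κ] [DecidableEq κ]
    (e : κ → Matrix I I ℂ), IsONB F w e → ∀ X ∈ fm F,
      Ric F w e X = gx F (fun c ↦ ric (dF ε p q m) (AF ε p q m) w c * w c) X X

/-- **A non-Kähler invariant Einstein metric exists for all sizes** on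
`SO(2p+2q+m)/(U(p) × U(q) × SO(m))` (`p, q ≥ 2`, `m ≥ 1`, `m ≠ 2`) and on
`Sp(p+q+r)/(U(p) × U(q) × Sp(r))` (`p, q, r ≥ 1`). -/
theorem result :
    (∀ p q m : ℕ, 2 ≤ p → 2 ≤ q → 1 ≤ m → m ≠ 2 →
      HasNonKaehlerEinstein (FD p q m) (-1) p q m) ∧
    ∀ p q r : ℕ, 1 ≤ p → 1 ≤ q → 1 ≤ r → HasNonKaehlerEinstein (FC p q r) 1 p q (2 * r) := by
  refine ⟨fun p q m hp hq hm hm2 ↦ ⟨m_fin.1 p q m hp hq hm hm2, ?_⟩,
    fun p q r hp hq hr ↦ ⟨?_, ?_⟩⟩
  · obtain ⟨-, -, hS, hk⟩ := k_gw.1 p q m hp hq hm hm2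
    exact fun w hw ↦ m_lnk _ (FD p q m) p q m w hS hk hw
  · have h5 : -(FC p q r).η = 1 := neg_neg (1 : ℝ)
    have h := m_fin.2 p q r hp hq hr
    unfold ConclM at h
    rw [h5] at h
    exact h
  · obtain ⟨-, -, hS, hk⟩ := k_gw.2 p q r hp hq hr
    have h5 : -(FC p q r).η = 1 := neg_neg (1 : ℝ)
    intro w hw
    have h := m_lnk _ (FC p q r) p q (2 * r) w hS hk hw
    rw [h5] at h
    exact h

end Pool.Agent.Results.MP_06d934_gt.TypeBCD
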